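import Pool.Agent.V7H5.ET.Dft

set_option autoImplicit false

namespace Pool.Agent.V7H5.ET

open Finset

/-- truncated geometric series as a transform -/
noncomputable def gk (Q : ℕ) (w : ℂ) (k : ℕ) : ℂ := hat Q (fun n => w ^ n) k

theorem gk_eq (Q : ℕ) (w : ℂ) (k : ℕ) : gk Q w k = ∑ n ∈ range Q, (w * (zt Q) ^ k) ^ n := by
  unfold gk hat
  apply sum_congr rfl
  intro n _
  rw [mul_pow, ← pow_mul, mul_comm k n]

theorem gk_mul (Q : ℕ) (w : ℂ) (k : ℕ) :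
    gk Q w k * (1 - w * (zt Q) ^ k) = 1 - (w * (zt Q) ^ k) ^ Q := by
  rw [gk_eq, geom_sum_mul_neg]

theorem avg_gk {Q : ℕ} (hQ : Q ≠ 0) {w : ℂ} {x : ℝ} (hx0 : 0 ≤ x) (hx : x < 1) (hw : ‖w‖ ≤ x) :
    avg Q (fun k => ‖gk Q w k‖ ^ 2) ≤ 1 / (1 - x) := by
  unfold gk
  rw [avg_hat hQ]
  have h1 : ∀ n ∈ range Q, ‖w ^ n‖ ^ 2 ≤ x ^ n := by
    intro n _
    rw [norm_pow]
    calc (‖w‖ ^ n) ^ 2 = (‖w‖ ^ 2) ^ n := by rw [← pow_mul, ← pow_mul, mul_comm]
      _ ≤ x ^ n := by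
        apply pow_le_pow_left₀ (by positivity)
        nlinarith [norm_nonneg w]
  refine (sum_le_sum h1).trans ?_
  have h2 := geom_sum_mul_neg x Q
  rw [le_div_iff₀ (by linarith), h2]
  have : 0 ≤ x ^ Q := by positivity
  linarith

theorem ker_l1 {Q : ℕ} (hQ : Q ≠ 0) {x : ℝ} (hx0 : 0 < x) (hx : x < 1) (L : ℕ) {u : ℂ}
    (hu : ‖u‖ = 1) (h2 : x ^ Q ≤ 1 / 2) (h3 : x ^ Q ≤ 1 - x) :
    avg Q (fun k => ‖gk Q (x * u) k - gk Q (x ^ (L + 1) * u) k‖) ≤ 2 * L + 4 := by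
  set y : ℝ := x ^ (L + 1) with hy
  have hy0 : 0 < y := by positivity
  have hyx : y ≤ x := by
    rw [hy, pow_succ]
    have : x ^ L ≤ 1 := pow_le_one₀ hx0.le hx.le
    nlinarith
  have hyx2 : x - y ≤ L * (1 - x) := by
    rw [hy, pow_succ]
    have h4 : 1 - x ^ L ≤ L * (1 - x) := by
      have := one_add_mul_le_pow (a := x - 1) (by linarith) L
      rw [add_sub_cancel] at this
      linarith
    have h5 : (0 : ℝ) ≤ L * (1 - x) := mul_nonneg (by positivity) (by linarith)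
    have h6 : 0 ≤ 1 - x ^ L := by
      have : x ^ L ≤ 1 := pow_le_one₀ hx0.le hx.le
      linarith
    nlinarith
  have hcast : ((x : ℂ) ^ (L + 1)) = ((y : ℝ) : ℂ) := by rw [hy]; push_cast; rfl
  have hzt : ∀ k, ‖(zt Q) ^ k‖ = 1 := by
    intro k; rw [norm_pow, norm_zt hQ, one_pow]
  have hnx : ‖(x : ℂ) * u‖ = x := by
    rw [norm_mul, hu, Complex.norm_real, Real.norm_eq_abs, abs_of_pos hx0, mul_one]
  have hny : ‖(y : ℂ) * u‖ = y := by
    rw [norm_mul, hu, Complex.norm_real, Real.norm_eq_abs, abs_of_pos hy0, mul_one]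
  rw [hcast]
  have point : ∀ k, ‖gk Q (x * u) k - gk Q (y * u) k‖ ≤
      4 * x ^ Q * ‖gk Q (x * u) k‖ + 2 * (x - y) * (‖gk Q (x * u) k‖ * ‖gk Q (y * u) k‖) := by
    intro k
    have e1 := gk_mul Q (x * u) k
    have e2 := gk_mul Q (y * u) k
    set g := gk Q (x * u) k
    set g' := gk Q (y * u) k
    set a : ℂ := 1 - x * u * (zt Q) ^ k
    set b : ℂ := 1 - y * u * (zt Q) ^ k
    have nA : ‖(x * u * (zt Q) ^ k) ^ Q‖ = x ^ Q := by
      rw [norm_pow, norm_mul, hnx, hzt, mul_one]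
    have nB : ‖(y * u * (zt Q) ^ k) ^ Q‖ = y ^ Q := by
      rw [norm_pow, norm_mul, hny, hzt, mul_one]
    have nB' : y ^ Q ≤ x ^ Q := pow_le_pow_left₀ hy0.le hyx Q
    have hA : 1 / 2 ≤ ‖g * a‖ := by
      rw [e1]
      have := norm_sub_norm_le (1 : ℂ) ((x * u * (zt Q) ^ k) ^ Q)
      rw [nA, norm_one] at this
      linarith
    have hba : b - a = (x - y : ℝ) * (u * (zt Q) ^ k) := by
      simp only [a, b]; push_cast; ring
    have nba : ‖b - a‖ = x - y := by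
      rw [hba, norm_mul, norm_mul, hu, hzt, Complex.norm_real, Real.norm_eq_abs, abs_of_nonneg
        (by linarith)]
      ring
    -- a * (g - g') = (A - B) + g' (b - a)
    have h5 : a * (g - g') = (g * a - g' * b) + g' * (b - a) := by ring
    have h6 : ‖g * a - g' * b‖ ≤ 2 * x ^ Q := by
      rw [e1, e2]
      have : (1 - (x * u * (zt Q) ^ k) ^ Q) - (1 - (y * u * (zt Q) ^ k) ^ Q) =
        (y * u * (zt Q) ^ k) ^ Q - (x * u * (zt Q) ^ k) ^ Q := by ring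
      rw [this]
      refine (norm_sub_le _ _).trans ?_
      rw [nA, nB]; linarith
    have h7 : ‖a‖ * ‖g - g'‖ ≤ 2 * x ^ Q + ‖g'‖ * (x - y) := by
      rw [← norm_mul, h5]
      refine (norm_add_le _ _).trans ?_
      rw [norm_mul g' (b - a), nba]
      linarith
    rw [norm_mul] at hA
    have hg0 := norm_nonneg g
    have ha0 := norm_nonneg a
    have hgg := norm_nonneg (g - g')
    have h8 : ‖g - g'‖ ≤ 2 * (‖g‖ * (‖a‖ * ‖g - g'‖)) := by nlinarith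
    have h9 : ‖g‖ * (‖a‖ * ‖g - g'‖) ≤ ‖g‖ * (2 * x ^ Q + ‖g'‖ * (x - y)) :=
      mul_le_mul_of_nonneg_left h7 hg0
    linarith
  refine (avg_mono point).trans ?_
  rw [avg_add]
  rw [avg_smul, avg_smul]
  have hx1 : 0 < 1 - x := by linarith
  have q1 := avg_gk hQ hx0.le hx (le_of_eq hnx)
  have q2 : avg Q (fun k => ‖gk Q (y * u) k‖ ^ 2) ≤ 1 / (1 - x) :=
    avg_gk hQ hx0.le hx (hny.le.trans hyx)
  have q1' := avg_nonneg (Q := Q) (F := fun k => ‖gk Q (x * u) k‖ ^ 2) (fun k => by positivity)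
  have q2' := avg_nonneg (Q := Q) (F := fun k => ‖gk Q (y * u) k‖ ^ 2) (fun k => by positivity)
  have hinv : 0 < 1 / (1 - x) := by positivity
  have r1 : avg Q (fun k => ‖gk Q (x * u) k‖) ≤ 1 / (1 - x) := by
    apply le_of_sq_le_sq _ hinv.le
    have h11 : 1 ≤ 1 / (1 - x) := by
      rw [le_div_iff₀ hx1]; linarith
    calc (avg Q (fun k => ‖gk Q (x * u) k‖)) ^ 2 ≤ avg Q (fun k => ‖gk Q (x * u) k‖ ^ 2) :=
          avg_le_sqrt hQ
      _ ≤ 1 / (1 - x) := q1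
      _ ≤ (1 / (1 - x)) ^ 2 := by nlinarith
  have r2 : avg Q (fun k => ‖gk Q (x * u) k‖ * ‖gk Q (y * u) k‖) ≤ 1 / (1 - x) := by
    apply le_of_sq_le_sq _ hinv.le
    refine (avg_cs Q _ _).trans ?_
    rw [pow_two]
    exact mul_le_mul q1 q2 q2' hinv.le
  have s1 : 4 * x ^ Q * avg Q (fun k => ‖gk Q (x * u) k‖) ≤ 4 := by
    have hxq : 0 < x ^ Q := by positivity
    calc 4 * x ^ Q * avg Q (fun k => ‖gk Q (x * u) k‖) ≤ 4 * x ^ Q * (1 / (1 - x)) :=
          mul_le_mul_of_nonneg_left r1 (by positivity)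
      _ ≤ 4 * (1 - x) * (1 / (1 - x)) := by
          apply mul_le_mul_of_nonneg_right _ hinv.le
          linarith
      _ = 4 := by field_simp
  have s2 : 2 * (x - y) * avg Q (fun k => ‖gk Q (x * u) k‖ * ‖gk Q (y * u) k‖) ≤ 2 * L := by
    calc 2 * (x - y) * avg Q (fun k => ‖gk Q (x * u) k‖ * ‖gk Q (y * u) k‖)
        ≤ 2 * (x - y) * (1 / (1 - x)) := mul_le_mul_of_nonneg_left r2 (by linarith)
      _ ≤ 2 * (L * (1 - x)) * (1 / (1 - x)) := by
          apply mul_le_mul_of_nonneg_right _ hinv.le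
          linarith
      _ = 2 * L := by field_simp
  linarith

end Pool.Agent.V7H5.ET
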