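import Pool.Agent.V7H5.ET.Mult
import Pool.Agent.V7H5.ET.Ker

set_option autoImplicit false

namespace Pool.Agent.V7H5.ET

open Finset

theorem ms_sum_le {B : Finset ℕ} {x : ℝ} (hx : 0 ≤ x) (j : ℕ) :
    ∑ s ∈ ms B j, x ^ s.sum ≤ (∑ a ∈ B, x ^ a) ^ j := by
  rw [pow_expand]
  apply sum_le_sum
  intro s _
  have h1 : (1 : ℝ) ≤ s.countPerms := by exact_mod_cast cp_pos s
  have h2 : 0 ≤ x ^ s.sum := by positivity
  nlinarith

theorem nonnodup_le {B : Finset ℕ} {x : ℝ} (hx : 0 ≤ x) (hx1 : x ≤ 1) (j : ℕ) :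
    ∑ s ∈ (ms B j).filter (fun s => ¬ s.Nodup), x ^ s.sum ≤
      j * (j - 1) * (∑ a ∈ B, x ^ a) ^ (j - 1) := by
  classical
  rcases Nat.lt_or_ge j 2 with hj | hj
  · have h0 : (ms B j).filter (fun s => ¬ s.Nodup) = ∅ := by
      rw [filter_eq_empty_iff]
      intro s hs
      rw [mem_ms] at hs
      rw [not_not, Multiset.nodup_iff_ne_cons_cons]
      rintro a t rfl
      rw [Multiset.card_cons, Multiset.card_cons] at hs
      omega
    rw [h0, sum_empty]
    interval_cases j <;> simp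
  · obtain ⟨i, rfl⟩ : ∃ i, j = i + 2 := ⟨j - 2, by omega⟩
    have hsub : (ms B (i + 2)).filter (fun s => ¬ s.Nodup) ⊆
        (B ×ˢ ms B i).image (fun p => p.1 ::ₘ p.1 ::ₘ p.2) := by
      intro s hs
      rw [mem_filter, mem_ms, Multiset.nodup_iff_ne_cons_cons] at hs
      push Not at hs
      obtain ⟨⟨h1, h2⟩, a, t, rfl⟩ := hs
      rw [mem_image]
      refine ⟨(a, t), ?_, rfl⟩
      rw [mem_product, mem_ms]
      refine ⟨h2 a (by simp), ?_, fun b hb => h2 b (by simp [hb])⟩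
      rw [Multiset.card_cons, Multiset.card_cons] at h1
      change t.card = i
      omega
    have hS : 0 ≤ ∑ a ∈ B, x ^ a := sum_nonneg fun _ _ => by positivity
    calc ∑ s ∈ (ms B (i + 2)).filter (fun s => ¬ s.Nodup), x ^ s.sum
        ≤ ∑ s ∈ (B ×ˢ ms B i).image (fun p => p.1 ::ₘ p.1 ::ₘ p.2), x ^ s.sum :=
          sum_le_sum_of_subset_of_nonneg hsub fun _ _ _ => by positivity
      _ ≤ ∑ p ∈ B ×ˢ ms B i, x ^ (p.1 ::ₘ p.1 ::ₘ p.2).sum :=
          sum_image_le_of_nonneg fun _ _ => by positivity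
      _ = ∑ a ∈ B, ∑ s ∈ ms B i, x ^ (a + (a + s.sum)) := by
          rw [sum_product]
          simp
      _ ≤ ∑ a ∈ B, ∑ s ∈ ms B i, x ^ a * x ^ s.sum := by
          apply sum_le_sum; intro a _
          apply sum_le_sum; intro s _
          rw [← pow_add]
          exact pow_le_pow_of_le_one hx hx1 (by omega)
      _ = (∑ a ∈ B, x ^ a) * ∑ s ∈ ms B i, x ^ s.sum := by
          rw [sum_mul_sum]
      _ ≤ (∑ a ∈ B, x ^ a) * (∑ a ∈ B, x ^ a) ^ i :=
          mul_le_mul_of_nonneg_left (ms_sum_le hx i) hS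
      _ = 1 * (∑ a ∈ B, x ^ a) ^ (i + 2 - 1) := by
          rw [one_mul, show i + 2 - 1 = i + 1 by omega, pow_succ]; ring
      _ ≤ _ := by
          apply mul_le_mul_of_nonneg_right _ (by positivity)
          push_cast
          have : (0 : ℝ) ≤ i := by positivity
          nlinarith

theorem sum_uu_sub {B : Finset ℕ} (x : ℝ) {j Q : ℕ} (hQ : ∀ s ∈ ms B j, s.sum < Q) :
    ∑ n ∈ range Q, ((uu B j n : ℝ) - nn B j n) * x ^ n =
      ∑ s ∈ (ms B j).filter (fun s => ¬ s.Nodup), x ^ s.sum := by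
  rw [sum_filter, sum_ms_fiber hQ]
  apply sum_congr rfl
  intro n _
  rw [uu_split]
  push_cast
  rw [add_sub_cancel_left]
  rw [← sum_filter, filter_filter]
  rw [sum_congr rfl (g := fun _ => x ^ n)
    (fun s hs => by rw [(mem_filter.mp hs).2.1]), sum_const, nsmul_eq_mul]

theorem sum_uu_sub_le {B : Finset ℕ} {x : ℝ} (hx : 0 ≤ x) (hx1 : x ≤ 1) {j Q : ℕ}
    (hQ : ∀ s ∈ ms B j, s.sum < Q) :
    ∑ n ∈ range Q, ((uu B j n : ℝ) - nn B j n) * x ^ n ≤
      j * (j - 1) * (∑ a ∈ B, x ^ a) ^ (j - 1) := by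
  rw [sum_uu_sub x hQ]
  exact nonnodup_le hx hx1 j

/-- the square of the difference between the ordered and the nonrepeating counts -/
theorem sum_sq_rr_sub {B : Finset ℕ} {x : ℝ} (hx : 0 ≤ x) (hx1 : x ≤ 1) {j Q K : ℕ}
    (hQ : ∀ s ∈ ms B j, s.sum < Q) (hK : ∀ n, uu B j n ≤ K) :
    ∑ n ∈ range Q, ((rr B j n : ℝ) - j.factorial * nn B j n) ^ 2 * x ^ n ≤
      j.factorial ^ 2 * K * (j * (j - 1) * (∑ a ∈ B, x ^ a) ^ (j - 1)) := by
  refine le_trans ?_ (mul_le_mul_of_nonneg_left (sum_uu_sub_le hx hx1 hQ) (by positivity))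
  rw [mul_sum]
  apply sum_le_sum
  intro n _
  have h1 : (j.factorial : ℝ) * nn B j n ≤ rr B j n := by exact_mod_cast rr_ge B j n
  have h2 : (nn B j n : ℝ) ≤ uu B j n := by exact_mod_cast nn_le B j n
  have h3 : (rr B j n : ℝ) ≤ j.factorial * nn B j n + j.factorial * ((uu B j n : ℝ) - nn B j n) := by
    have := rr_sub_le B j n
    have h4 : ((uu B j n - nn B j n : ℕ) : ℝ) = (uu B j n : ℝ) - nn B j n := by
      rw [Nat.cast_sub (nn_le B j n)]
    rw [← h4]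
    exact_mod_cast this
  have h4 : (uu B j n : ℝ) ≤ K := by exact_mod_cast hK n
  have h5 : (0 : ℝ) ≤ nn B j n := by positivity
  have hf : (0 : ℝ) < j.factorial := by exact_mod_cast Nat.factorial_pos j
  have h6 : ((rr B j n : ℝ) - j.factorial * nn B j n) ^ 2 ≤
      (j.factorial * ((uu B j n : ℝ) - nn B j n)) ^ 2 :=
    pow_le_pow_left₀ (by linarith) (by linarith) 2
  have h7 : ((uu B j n : ℝ) - nn B j n) ^ 2 ≤ K * ((uu B j n : ℝ) - nn B j n) := by nlinarith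
  calc ((rr B j n : ℝ) - j.factorial * nn B j n) ^ 2 * x ^ n
      ≤ (j.factorial * ((uu B j n : ℝ) - nn B j n)) ^ 2 * x ^ n :=
        mul_le_mul_of_nonneg_right h6 (by positivity)
    _ = j.factorial ^ 2 * ((uu B j n : ℝ) - nn B j n) ^ 2 * x ^ n := by ring
    _ ≤ j.factorial ^ 2 * (K * ((uu B j n : ℝ) - nn B j n)) * x ^ n := by
        apply mul_le_mul_of_nonneg_right _ (by positivity)
        exact mul_le_mul_of_nonneg_left h7 (by positivity)
    _ = _ := by ring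

theorem sum_sq_rr_sub' {B : Finset ℕ} {x : ℝ} (hx : 0 ≤ x) (hx1 : x ≤ 1) {j Q K : ℕ}
    (hQ : ∀ s ∈ ms B j, s.sum < Q) (hK : ∀ n, uu B j n ≤ K) :
    ∑ n ∈ range Q, ((rr B j n : ℝ) - j.factorial * uu B j n) ^ 2 * x ^ n ≤
      j.factorial ^ 2 * K * (j * (j - 1) * (∑ a ∈ B, x ^ a) ^ (j - 1)) := by
  refine le_trans ?_ (mul_le_mul_of_nonneg_left (sum_uu_sub_le hx hx1 hQ) (by positivity))
  rw [mul_sum]
  apply sum_le_sum
  intro n _
  have h1 : (j.factorial : ℝ) * nn B j n ≤ rr B j n := by exact_mod_cast rr_ge B j n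
  have h2 : (nn B j n : ℝ) ≤ uu B j n := by exact_mod_cast nn_le B j n
  have h3 : (rr B j n : ℝ) ≤ j.factorial * (uu B j n : ℝ) := by exact_mod_cast rr_le B j n
  have h4 : (uu B j n : ℝ) ≤ K := by exact_mod_cast hK n
  have h5 : (0 : ℝ) ≤ nn B j n := by positivity
  have hf : (0 : ℝ) < j.factorial := by exact_mod_cast Nat.factorial_pos j
  have h6 : ((rr B j n : ℝ) - j.factorial * uu B j n) ^ 2 ≤
      (j.factorial * ((uu B j n : ℝ) - nn B j n)) ^ 2 := by
    rw [← neg_sq ((rr B j n : ℝ) - j.factorial * uu B j n)]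
    exact pow_le_pow_left₀ (by linarith) (by linarith) 2
  have h7 : ((uu B j n : ℝ) - nn B j n) ^ 2 ≤ K * ((uu B j n : ℝ) - nn B j n) := by nlinarith
  calc ((rr B j n : ℝ) - j.factorial * uu B j n) ^ 2 * x ^ n
      ≤ (j.factorial * ((uu B j n : ℝ) - nn B j n)) ^ 2 * x ^ n :=
        mul_le_mul_of_nonneg_right h6 (by positivity)
    _ = j.factorial ^ 2 * ((uu B j n : ℝ) - nn B j n) ^ 2 * x ^ n := by ring
    _ ≤ j.factorial ^ 2 * (K * ((uu B j n : ℝ) - nn B j n)) * x ^ n := by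
        apply mul_le_mul_of_nonneg_right _ (by positivity)
        exact mul_le_mul_of_nonneg_left h7 (by positivity)
    _ = _ := by ring

/-- lower bound for the sum of the squares of the ordered counts -/
theorem rr_sq_ge {B : Finset ℕ} {x : ℝ} (hx : 0 ≤ x) {j Q : ℕ}
    (hQ : ∀ s ∈ ms B j, s.sum < Q) :
    (j.factorial : ℝ) ^ 2 * en B x j ≤ ∑ n ∈ range Q, (rr B j n : ℝ) ^ 2 * x ^ n := by
  rw [en_eq x hQ, mul_sum]
  apply sum_le_sum
  intro n _
  have h1 : (j.factorial : ℝ) * nn B j n ≤ rr B j n := by exact_mod_cast rr_ge B j n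
  calc (j.factorial : ℝ) ^ 2 * ((nn B j n : ℝ) ^ 2 * x ^ n) =
      ((j.factorial : ℝ) * nn B j n) ^ 2 * x ^ n := by ring
    _ ≤ _ := by
      apply mul_le_mul_of_nonneg_right _ (by positivity)
      exact pow_le_pow_left₀ (by positivity) h1 2

theorem young {a b η : ℝ} (hη : 0 < η) : (a + b) ^ 2 ≤ (1 + η) * a ^ 2 + (1 + 1 / η) * b ^ 2 := by
  have h : 0 ≤ (η * a - b) ^ 2 / η := by positivity
  have e : (1 + η) * a ^ 2 + (1 + 1 / η) * b ^ 2 - (a + b) ^ 2 = (η * a - b) ^ 2 / η := by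
    field_simp
    ring
  linarith

/-- upper bound for the sum of the squares of the ordered counts -/
theorem rr_sq_le {B : Finset ℕ} {x : ℝ} (hx : 0 ≤ x) (hx1 : x ≤ 1) {j Q K : ℕ}
    (hQ : ∀ s ∈ ms B j, s.sum < Q) (hK : ∀ n, uu B j n ≤ K) {η : ℝ} (hη : 0 < η) :
    ∑ n ∈ range Q, (rr B j n : ℝ) ^ 2 * x ^ n ≤
      (1 + η) * ((j.factorial : ℝ) ^ 2 * en B x j) +
      (1 + 1 / η) * (j.factorial ^ 2 * K * (j * (j - 1) * (∑ a ∈ B, x ^ a) ^ (j - 1))) := by
  refine le_trans ?_ (add_le_add_right (mul_le_mul_of_nonneg_left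
    (sum_sq_rr_sub hx hx1 hQ hK) (by positivity)) _)
  rw [en_eq x hQ, mul_sum, mul_sum, mul_sum, ← sum_add_distrib]
  apply sum_le_sum
  intro n _
  have := young (a := (j.factorial : ℝ) * nn B j n)
    (b := (rr B j n : ℝ) - j.factorial * nn B j n) hη
  rw [add_sub_cancel] at this
  have h2 := mul_le_mul_of_nonneg_right this (by positivity : (0 : ℝ) ≤ x ^ n)
  refine h2.trans (le_of_eq ?_)
  ring

end Pool.Agent.V7H5.ET
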