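import Pool.Agent.V7H5.ET.Inf

set_option autoImplicit false

namespace Pool.Agent.V7H5.ET

open Finset

theorem tp_const (l : ℝ) (n : ℕ) : tp (ι := Unit) (fun _ => (l : ℂ)) (fun _ => 1) n = l := by
  unfold tp
  simp

/-- the law with a constant comparison function -/
theorem var_const (m K : ℕ) (l : ℝ) {ε : ℝ} (hε : 0 < ε) :
    ∃ x0 : ℝ, x0 < 1 ∧ ∀ A : Set ℕ, (∀ n, rep A (m + 2) n ≤ K) → ∀ x : ℝ, x0 < x → x < 1 →
      ((m : ℝ) + 1) / (m + 2) * (∑' n, (rep A (m + 2) n : ℝ) * x ^ n) - ε * (1 / (1 - x)) ≤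
        ∑' n, ((rep A (m + 2) n : ℝ) - l) ^ 2 * x ^ n := by
  obtain ⟨x0, h0, h1⟩ := var_law m K (ι := Unit) (fun _ => (l : ℂ)) (fun _ => 1)
    (fun _ => by simp) hε
  refine ⟨x0, h0, fun A hA x hx hx1 => ?_⟩
  have := h1 A hA x hx hx1
  refine this.trans (le_of_eq ?_)
  apply tsum_congr
  intro n
  rw [tp_const]
  have : ((rep A (m + 2) n : ℂ) - (l : ℂ)) = (((rep A (m + 2) n : ℝ) - l : ℝ) : ℂ) := by
    push_cast; rfl
  rw [this, Complex.norm_real, Real.norm_eq_abs, sq_abs]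

/-- combination into one series -/
theorem var_comb (m K : ℕ) (l : ℝ) {ε : ℝ} (hε : 0 < ε) :
    ∃ x0 : ℝ, 0 ≤ x0 ∧ x0 < 1 ∧ ∀ A : Set ℕ, (∀ n, rep A (m + 2) n ≤ K) → ∀ x : ℝ, x0 < x →
      x < 1 →
      (Summable fun n => (((rep A (m + 2) n : ℝ) - l) ^ 2 -
        ((m : ℝ) + 1) / (m + 2) * rep A (m + 2) n) * x ^ n) ∧
      - (ε * (1 / (1 - x))) ≤
        ∑' n, (((rep A (m + 2) n : ℝ) - l) ^ 2 -
          ((m : ℝ) + 1) / (m + 2) * rep A (m + 2) n) * x ^ n := by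
  obtain ⟨x0, h0, h1⟩ := var_const m K l hε
  refine ⟨max x0 0, le_max_right _ _, max_lt h0 (by norm_num), fun A hA x hx hx1 => ?_⟩
  have hx0 : 0 < x := lt_of_le_of_lt (le_max_right _ _) hx
  have key := h1 A hA x (lt_of_le_of_lt (le_max_left _ _) hx) hx1
  have hA' : ∀ n, (rep A (m + 2) n : ℝ) ≤ K := fun n => by exact_mod_cast hA n
  have s1 : Summable fun n => (rep A (m + 2) n : ℝ) * x ^ n :=
    summable_bdd hx0.le hx1 (fun n => by positivity) hA'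
  have s2 : Summable fun n => ((rep A (m + 2) n : ℝ) - l) ^ 2 * x ^ n := by
    apply summable_bdd hx0.le hx1 (fun n => by positivity) (C := ((K : ℝ) + |l|) ^ 2)
    intro n
    rw [← sq_abs]
    apply pow_le_pow_left₀ (abs_nonneg _)
    refine (abs_sub _ _).trans ?_
    rw [abs_of_nonneg (by positivity : (0 : ℝ) ≤ (rep A (m + 2) n : ℝ))]
    linarith [hA' n]
  have e : (fun n => (((rep A (m + 2) n : ℝ) - l) ^ 2 -
        ((m : ℝ) + 1) / (m + 2) * rep A (m + 2) n) * x ^ n) =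
      fun n => ((rep A (m + 2) n : ℝ) - l) ^ 2 * x ^ n -
        ((m : ℝ) + 1) / (m + 2) * ((rep A (m + 2) n : ℝ) * x ^ n) := by
    funext n; ring
  rw [e]
  refine ⟨s2.sub (s1.mul_left _), ?_⟩
  rw [s2.tsum_sub (s1.mul_left _), tsum_mul_left]
  linarith

theorem exists_near {x0 R δ : ℝ} (h0 : x0 < 1) (hδ : 0 < δ) :
    ∃ x : ℝ, x0 < x ∧ x < 1 ∧ R < δ * (1 / (1 - x)) := by
  have hR : 0 < |R| + 1 := by positivity
  refine ⟨1 - min ((1 - x0) / 2) (δ / (|R| + 1)), ?_, ?_, ?_⟩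
  · have := min_le_left ((1 - x0) / 2) (δ / (|R| + 1))
    linarith
  · have : 0 < min ((1 - x0) / 2) (δ / (|R| + 1)) := lt_min (by linarith) (by positivity)
    linarith
  · have h1 : 0 < min ((1 - x0) / 2) (δ / (|R| + 1)) := lt_min (by linarith) (by positivity)
    have h2 := min_le_right ((1 - x0) / 2) (δ / (|R| + 1))
    rw [sub_sub_cancel, mul_one_div, lt_div_iff₀ h1]
    have h3 : R ≤ |R| := le_abs_self R
    calc R * min ((1 - x0) / 2) (δ / (|R| + 1)) ≤ |R| * min ((1 - x0) / 2) (δ / (|R| + 1)) :=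
          mul_le_mul_of_nonneg_right h3 h1.le
      _ < (|R| + 1) * min ((1 - x0) / 2) (δ / (|R| + 1)) := by nlinarith
      _ ≤ (|R| + 1) * (δ / (|R| + 1)) := mul_le_mul_of_nonneg_left h2 hR.le
      _ = δ := by field_simp

theorem gap (m : ℕ) {A : Set ℕ} {l u : ℕ} (hl : 1 ≤ l)
    (hA : ∃ N, ∀ n, N ≤ n → l ≤ rep A (m + 2) n ∧ rep A (m + 2) n ≤ u) :
    ((m : ℝ) + 1) / (m + 2) ≤ (Real.sqrt u - Real.sqrt l) ^ 2 := by
  by_contra hcon
  push Not at hcon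
  obtain ⟨N, hN⟩ := hA
  obtain ⟨κ, hκ⟩ : ∃ κ, κ = ((m : ℝ) + 1) / (m + 2) := ⟨_, rfl⟩
  rw [← hκ] at hcon
  have hκ0 : 0 ≤ κ := by rw [hκ]; positivity
  have hκ1 : κ ≤ 1 := by rw [hκ, div_le_one (by positivity)]; linarith
  have hlu : l ≤ u := (hN N le_rfl).1.trans (hN N le_rfl).2
  have hl' : (1 : ℝ) ≤ l := by exact_mod_cast hl
  have hu' : (1 : ℝ) ≤ u := by exact_mod_cast hl.trans hlu
  obtain ⟨lam, hlam⟩ : ∃ lam, lam = ((u : ℝ) + l - κ) / 2 := ⟨_, rfl⟩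
  have hlam0 : 0 < lam := by rw [hlam]; linarith
  have hsq : (Real.sqrt u - Real.sqrt l) ^ 2 = u + l - 2 * (Real.sqrt u * Real.sqrt l) := by
    have e1 := Real.sq_sqrt (by positivity : (0 : ℝ) ≤ u)
    have e2 := Real.sq_sqrt (by positivity : (0 : ℝ) ≤ l)
    calc (Real.sqrt u - Real.sqrt l) ^ 2 = Real.sqrt u ^ 2 + Real.sqrt l ^ 2 -
        2 * (Real.sqrt u * Real.sqrt l) := by ring
      _ = _ := by rw [e1, e2]
  rw [hsq] at hcon
  have hlt : lam < Real.sqrt u * Real.sqrt l := by rw [hlam]; linarith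
  have hsq2 : (Real.sqrt u * Real.sqrt l) ^ 2 = u * l := by
    rw [mul_pow, Real.sq_sqrt (by positivity), Real.sq_sqrt (by positivity)]
  have hδ : 0 < (u : ℝ) * l - lam ^ 2 := by
    rw [← hsq2]
    have := pow_lt_pow_left₀ hlt hlam0.le (n := 2) (by norm_num)
    linarith
  obtain ⟨δ, hδdef⟩ : ∃ δ, δ = (u : ℝ) * l - lam ^ 2 := ⟨_, rfl⟩
  rw [← hδdef] at hδ
  -- bound
  obtain ⟨K, hK⟩ : ∃ K : ℕ, ∀ n, rep A (m + 2) n ≤ K := by
    refine ⟨max u ((range N).sup (fun n => rep A (m + 2) n)), fun n => ?_⟩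
    rcases le_or_gt N n with h | h
    · exact ((hN n h).2).trans (le_max_left _ _)
    · exact (le_sup (f := fun n => rep A (m + 2) n) (mem_range.mpr h)).trans (le_max_right _ _)
  obtain ⟨x0, hx00, hx01, H⟩ := var_comb m K lam (half_pos hδ)
  obtain ⟨x, hx1, hx2, hx3⟩ := exists_near (R := N * (((K : ℝ) + lam) ^ 2 + δ)) hx01
    (half_pos hδ)
  obtain ⟨hs, hk⟩ := H A hK x hx1 hx2
  have hx0 : 0 < x := lt_of_le_of_lt hx00 hx1
  rw [← hκ] at hs hk
  have point : ∀ n, (((rep A (m + 2) n : ℝ) - lam) ^ 2 - κ * rep A (m + 2) n) * x ^ n ≤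
      (if n < N then (((K : ℝ) + lam) ^ 2 + δ) else 0) - δ * x ^ n := by
    intro n
    have hxn : 0 < x ^ n := by positivity
    have hxn1 : x ^ n ≤ 1 := pow_le_one₀ hx0.le hx2.le
    have hf0 : (0 : ℝ) ≤ rep A (m + 2) n := by positivity
    split_ifs with h
    · have h1 : ((rep A (m + 2) n : ℝ) - lam) ^ 2 ≤ ((K : ℝ) + lam) ^ 2 := by
        have hKn : (rep A (m + 2) n : ℝ) ≤ K := by exact_mod_cast hK n
        apply sq_le_sq'
        · linarith
        · linarith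
      have h2 : ((rep A (m + 2) n : ℝ) - lam) ^ 2 - κ * rep A (m + 2) n ≤ ((K : ℝ) + lam) ^ 2 := by
        have : 0 ≤ κ * rep A (m + 2) n := by positivity
        linarith
      have h3 := mul_le_mul_of_nonneg_right h2 hxn.le
      have h4 : ((K : ℝ) + lam) ^ 2 * x ^ n ≤ ((K : ℝ) + lam) ^ 2 * 1 :=
        mul_le_mul_of_nonneg_left hxn1 (by positivity)
      have h5 : δ * x ^ n ≤ δ * 1 := mul_le_mul_of_nonneg_left hxn1 hδ.le
      linarith
    · push Not at h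
      obtain ⟨h1, h2⟩ := hN n h
      have h1' : (l : ℝ) ≤ rep A (m + 2) n := by exact_mod_cast h1
      have h2' : (rep A (m + 2) n : ℝ) ≤ u := by exact_mod_cast h2
      have h3 : ((rep A (m + 2) n : ℝ) - l) * ((rep A (m + 2) n : ℝ) - u) ≤ 0 :=
        mul_nonpos_of_nonneg_of_nonpos (by linarith) (by linarith)
      have h4 : ((rep A (m + 2) n : ℝ) - lam) ^ 2 - κ * rep A (m + 2) n ≤ -δ := by
        have : ((rep A (m + 2) n : ℝ) - lam) ^ 2 - κ * rep A (m + 2) n =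
          ((rep A (m + 2) n : ℝ) - l) * ((rep A (m + 2) n : ℝ) - u) - δ := by
          rw [hδdef, hlam]; ring
        linarith
      have h5 := mul_le_mul_of_nonneg_right h4 hxn.le
      linarith
  have sgeo := summable_geometric_of_lt_one hx0.le hx2
  have sfin : Summable fun n => (if n < N then (((K : ℝ) + lam) ^ 2 + δ) else 0) := by
    apply summable_of_ne_finset_zero (s := range N)
    intro n hn
    rw [mem_range] at hn
    rw [if_neg hn]
  have hle := hs.tsum_le_tsum point (sfin.sub (sgeo.mul_left δ))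
  rw [sfin.tsum_sub (sgeo.mul_left δ), tsum_mul_left, tsum_geometric_of_lt_one hx0.le hx2] at hle
  have e1 : ∑' n, (if n < N then (((K : ℝ) + lam) ^ 2 + δ) else 0) =
      N * (((K : ℝ) + lam) ^ 2 + δ) := by
    rw [tsum_eq_sum (s := range N) (fun n hn => by rw [mem_range] at hn; rw [if_neg hn])]
    rw [sum_congr rfl (g := fun _ => (((K : ℝ) + lam) ^ 2 + δ))
      (fun n hn => if_pos (mem_range.mp hn)), sum_const, card_range, nsmul_eq_mul]
  rw [e1] at hle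
  rw [one_div] at hk hx3
  linarith

theorem ratio_ge {m : ℕ} (hm : 1 ≤ m) : (2 : ℝ) / 3 ≤ ((m : ℝ) + 1) / (m + 2) := by
  rw [div_le_div_iff₀ (by norm_num) (by positivity)]
  have : (1 : ℝ) ≤ m := by exact_mod_cast hm
  linarith

theorem four {m : ℕ} (hm : 1 ≤ m) {A : Set ℕ} (hA : ∃ N, ∀ n, N ≤ n → 1 ≤ rep A (m + 2) n)
    (N : ℕ) : ∃ n, N ≤ n ∧ 4 ≤ rep A (m + 2) n := by
  by_contra hcon
  push Not at hcon
  obtain ⟨N1, hN1⟩ := hA
  have h1 := gap m (A := A) (l := 1) (u := 3) le_rfl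
    ⟨max N N1, fun n hn => ⟨hN1 n ((le_max_right _ _).trans hn), by
      have := hcon n ((le_max_left _ _).trans hn)
      omega⟩⟩
  have h2 := ratio_ge hm
  have h3 : (Real.sqrt ((3 : ℕ) : ℝ) - Real.sqrt ((1 : ℕ) : ℝ)) ^ 2 < 2 / 3 := by
    rw [Nat.cast_one, Real.sqrt_one]
    push_cast
    have e1 := Real.sq_sqrt (by norm_num : (0 : ℝ) ≤ 3)
    have e2 : (5 : ℝ) / 3 < Real.sqrt 3 := by
      rw [Real.lt_sqrt (by norm_num)]; norm_num
    nlinarith
  linarith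

theorem dens {m : ℕ} (hm : 1 ≤ m) (K : ℕ) : ∃ δ : ℝ, 0 < δ ∧ ∃ x0 : ℝ, x0 < 1 ∧
    ∀ A : Set ℕ, (∀ n, rep A (m + 2) n ≤ K) → ∀ x : ℝ, x0 < x → x < 1 →
      δ / (1 - x) ≤ ∑' n, if rep A (m + 2) n = 0 ∨ 4 ≤ rep A (m + 2) n then x ^ n else 0 := by
  obtain ⟨x0, hx00, hx01, H⟩ := var_comb m K (5 / 3) (ε := 1 / 9) (by norm_num)
  obtain ⟨C, hC⟩ : ∃ C : ℝ, C = ((K : ℝ) + 2) ^ 2 + 2 / 9 := ⟨_, rfl⟩
  have hC0 : 0 < C := by rw [hC]; positivity
  refine ⟨1 / 9 / C, by positivity, x0, hx01, fun A hA x hx hx1 => ?_⟩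
  obtain ⟨hs, hk⟩ := H A hA x hx hx1
  have hx0 : 0 < x := lt_of_le_of_lt hx00 hx
  have hκ := ratio_ge hm
  obtain ⟨κ, hκd⟩ : ∃ κ, κ = ((m : ℝ) + 1) / (m + 2) := ⟨_, rfl⟩
  rw [← hκd] at hκ hs hk
  have sgeo := summable_geometric_of_lt_one hx0.le hx1
  have sE : Summable fun n => if rep A (m + 2) n = 0 ∨ 4 ≤ rep A (m + 2) n then x ^ n else 0 := by
    apply Summable.of_nonneg_of_le _ _ sgeo
    · intro n; split_ifs <;> positivity
    · intro n; split_ifs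
      · exact le_rfl
      · positivity
  have point : ∀ n, (((rep A (m + 2) n : ℝ) - 5 / 3) ^ 2 - κ * rep A (m + 2) n) * x ^ n ≤
      C * (if rep A (m + 2) n = 0 ∨ 4 ≤ rep A (m + 2) n then x ^ n else 0) - 2 / 9 * x ^ n := by
    intro n
    have hxn : 0 < x ^ n := by positivity
    have hf0 : (0 : ℝ) ≤ rep A (m + 2) n := by positivity
    have hKn : (rep A (m + 2) n : ℝ) ≤ K := by exact_mod_cast hA n
    split_ifs with h
    · have h1 : ((rep A (m + 2) n : ℝ) - 5 / 3) ^ 2 ≤ ((K : ℝ) + 2) ^ 2 := by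
        apply sq_le_sq'
        · linarith
        · linarith
      have h2 : 0 ≤ κ * rep A (m + 2) n := by positivity
      have h3 : ((rep A (m + 2) n : ℝ) - 5 / 3) ^ 2 - κ * rep A (m + 2) n ≤ C - 2 / 9 := by
        rw [hC]; linarith
      have h4 := mul_le_mul_of_nonneg_right h3 hxn.le
      linarith
    · push Not at h
      obtain ⟨h1, h2⟩ := h
      have h5 : ((rep A (m + 2) n : ℝ) - 5 / 3) ^ 2 - κ * rep A (m + 2) n ≤ -(2 / 9) := by
        have h6 : ((rep A (m + 2) n : ℝ) - 5 / 3) ^ 2 - 2 / 3 * rep A (m + 2) n ≤ -(2 / 9) := by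
          have h7 : rep A (m + 2) n = 1 ∨ rep A (m + 2) n = 2 ∨ rep A (m + 2) n = 3 := by omega
          rcases h7 with h7 | h7 | h7 <;> rw [h7] <;> norm_num
        have h8 : 2 / 3 * (rep A (m + 2) n : ℝ) ≤ κ * rep A (m + 2) n :=
          mul_le_mul_of_nonneg_right hκ hf0
        linarith
      have h9 := mul_le_mul_of_nonneg_right h5 hxn.le
      linarith
  have hle := hs.tsum_le_tsum point ((sE.mul_left C).sub (sgeo.mul_left (2 / 9)))
  rw [(sE.mul_left C).tsum_sub (sgeo.mul_left (2 / 9)), tsum_mul_left, tsum_mul_left,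
    tsum_geometric_of_lt_one hx0.le hx1] at hle
  rw [one_div (1 - x)] at hk
  have h10 : 1 / 9 * (1 - x)⁻¹ ≤
      C * ∑' n, if rep A (m + 2) n = 0 ∨ 4 ≤ rep A (m + 2) n then x ^ n else 0 := by linarith
  rw [div_div, div_eq_mul_inv, mul_inv, ← mul_assoc]
  rw [mul_right_comm, ← div_eq_mul_inv, div_le_iff₀ hC0]
  linarith

end Pool.Agent.V7H5.ET
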