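import Mathlib

set_option autoImplicit false

namespace Pool.Agent.V7H5.ET

open Finset

/-- the primitive root of unity `exp (2 π i / Q)` -/
noncomputable def zt (Q : ℕ) : ℂ := Complex.exp (2 * Real.pi * Complex.I / Q)

/-- discrete Fourier transform of the first `Q` coefficients -/
noncomputable def hat (Q : ℕ) (c : ℕ → ℂ) (k : ℕ) : ℂ := ∑ n ∈ range Q, c n * (zt Q) ^ (n * k)

theorem norm_zt {Q : ℕ} (hQ : Q ≠ 0) : ‖zt Q‖ = 1 :=
  (Complex.isPrimitiveRoot_exp Q hQ).norm'_eq_one hQ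

theorem zt_ne {Q : ℕ} (hQ : Q ≠ 0) : zt Q ≠ 0 := by
  intro h
  have := norm_zt hQ
  rw [h] at this
  simp at this

theorem conj_zt {Q : ℕ} (hQ : Q ≠ 0) : (starRingEnd ℂ) (zt Q) = (zt Q)⁻¹ := by
  rw [Complex.inv_def, Complex.normSq_eq_norm_sq, norm_zt hQ]
  simp

theorem orth {Q : ℕ} (hQ : Q ≠ 0) {n m : ℕ} (hn : n < Q) (hm : m < Q) :
    ∑ k ∈ range Q, (zt Q) ^ (n * k) * (starRingEnd ℂ) ((zt Q) ^ (m * k)) =
      if n = m then (Q : ℂ) else 0 := by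
  have h0 := zt_ne hQ
  have h1 : ∀ k, (zt Q) ^ (n * k) * (starRingEnd ℂ) ((zt Q) ^ (m * k)) =
      ((zt Q) ^ n * ((zt Q) ^ m)⁻¹) ^ k := by
    intro k
    rw [map_pow, conj_zt hQ, mul_pow, ← pow_mul, inv_pow, inv_pow, ← pow_mul]
  simp_rw [h1]
  split_ifs with h
  · subst h
    rw [mul_inv_cancel₀ (pow_ne_zero _ h0)]
    simp
  · have hne : (zt Q) ^ n * ((zt Q) ^ m)⁻¹ ≠ 1 := by
      intro h2
      apply h
      apply (Complex.isPrimitiveRoot_exp Q hQ).pow_inj hn hm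
      have h3 := mul_inv_eq_one₀ (pow_ne_zero m h0) |>.mp h2
      exact h3
    rw [geom_sum_eq hne]
    have : ((zt Q) ^ n * ((zt Q) ^ m)⁻¹) ^ Q = 1 := by
      have h5 : (zt Q) ^ Q = 1 := (Complex.isPrimitiveRoot_exp Q hQ).pow_eq_one
      rw [mul_pow, inv_pow, ← pow_mul, ← pow_mul, mul_comm n Q, mul_comm m Q, pow_mul, pow_mul, h5]
      simp
    rw [this]
    simp

theorem parseval {Q : ℕ} (hQ : Q ≠ 0) (c : ℕ → ℂ) :
    ∑ k ∈ range Q, ‖hat Q c k‖ ^ 2 = Q * ∑ n ∈ range Q, ‖c n‖ ^ 2 := by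
  have key : ∑ k ∈ range Q, (hat Q c k) * (starRingEnd ℂ) (hat Q c k) =
      Q * ∑ n ∈ range Q, c n * (starRingEnd ℂ) (c n) := by
    unfold hat
    simp_rw [map_sum, map_mul, sum_mul_sum]
    rw [sum_comm]
    rw [mul_sum]
    apply sum_congr rfl
    intro n hn
    rw [sum_comm]
    have : ∀ m ∈ range Q, ∑ k ∈ range Q, c n * (zt Q) ^ (n * k) *
        ((starRingEnd ℂ) (c m) * (starRingEnd ℂ) ((zt Q) ^ (m * k))) =
        if n = m then (Q : ℂ) * (c n * (starRingEnd ℂ) (c m)) else 0 := by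
      intro m hm
      have h1 : ∀ k, c n * (zt Q) ^ (n * k) *
        ((starRingEnd ℂ) (c m) * (starRingEnd ℂ) ((zt Q) ^ (m * k))) =
        (c n * (starRingEnd ℂ) (c m)) *
          ((zt Q) ^ (n * k) * (starRingEnd ℂ) ((zt Q) ^ (m * k))) := by
        intro k; ring
      simp_rw [h1]
      rw [← mul_sum, orth hQ (mem_range.mp hn) (mem_range.mp hm)]
      split_ifs <;> ring
    rw [sum_congr rfl this]
    simp only [sum_ite_eq, mem_range]
    rw [if_pos (mem_range.mp hn)]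
  have e1 : ∀ z : ℂ, z * (starRingEnd ℂ) z = ((‖z‖ ^ 2 : ℝ) : ℂ) := by
    intro z
    rw [Complex.mul_conj, Complex.normSq_eq_norm_sq]
  simp_rw [e1] at key
  exact_mod_cast key

/-- the average over the `Q`-th roots of unity -/
noncomputable def avg (Q : ℕ) (F : ℕ → ℝ) : ℝ := (∑ k ∈ range Q, F k) / Q

theorem avg_hat {Q : ℕ} (hQ : Q ≠ 0) (c : ℕ → ℂ) :
    avg Q (fun k => ‖hat Q c k‖ ^ 2) = ∑ n ∈ range Q, ‖c n‖ ^ 2 := by
  unfold avg
  rw [parseval hQ, mul_comm, mul_div_assoc, div_self (by exact_mod_cast hQ), mul_one]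

theorem avg_cs (Q : ℕ) (F G : ℕ → ℝ) :
    (avg Q (fun k => F k * G k)) ^ 2 ≤ avg Q (fun k => F k ^ 2) * avg Q (fun k => G k ^ 2) := by
  unfold avg
  rw [div_pow, div_mul_div_comm, ← pow_two]
  apply div_le_div_of_nonneg_right _ (by positivity)
  exact sum_mul_sq_le_sq_mul_sq _ _ _

theorem avg_mono {Q : ℕ} {F G : ℕ → ℝ} (h : ∀ k, F k ≤ G k) : avg Q F ≤ avg Q G := by
  unfold avg
  apply div_le_div_of_nonneg_right _ (by positivity)
  exact sum_le_sum fun k _ => h k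

theorem avg_add (Q : ℕ) (F G : ℕ → ℝ) :
    avg Q (fun k => F k + G k) = avg Q F + avg Q G := by
  unfold avg
  rw [sum_add_distrib, add_div]

theorem avg_smul (Q : ℕ) (a : ℝ) (F : ℕ → ℝ) : avg Q (fun k => a * F k) = a * avg Q F := by
  unfold avg
  rw [← mul_sum, mul_div_assoc]

theorem avg_nonneg {Q : ℕ} {F : ℕ → ℝ} (h : ∀ k, 0 ≤ F k) : 0 ≤ avg Q F := by
  unfold avg
  apply div_nonneg (sum_nonneg fun k _ => h k) (by positivity)

theorem avg_const {Q : ℕ} (hQ : Q ≠ 0) (a : ℝ) : avg Q (fun _ => a) = a := by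
  unfold avg
  rw [sum_const, card_range, nsmul_eq_mul, mul_comm, mul_div_assoc, div_self (by exact_mod_cast hQ),
    mul_one]

theorem avg_le_sqrt {Q : ℕ} (hQ : Q ≠ 0) {F : ℕ → ℝ} :
    (avg Q F) ^ 2 ≤ avg Q (fun k => F k ^ 2) := by
  have := avg_cs Q F (fun _ => 1)
  simp only [mul_one, one_pow] at this
  rwa [avg_const hQ, mul_one] at this

theorem hat_add (Q : ℕ) (c d : ℕ → ℂ) (k : ℕ) :
    hat Q (fun n => c n + d n) k = hat Q c k + hat Q d k := by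
  unfold hat
  rw [← sum_add_distrib]
  apply sum_congr rfl
  intro n _
  ring

theorem hat_sub (Q : ℕ) (c d : ℕ → ℂ) (k : ℕ) :
    hat Q (fun n => c n - d n) k = hat Q c k - hat Q d k := by
  unfold hat
  rw [← sum_sub_distrib]
  apply sum_congr rfl
  intro n _
  ring

theorem hat_smul (Q : ℕ) (a : ℂ) (c : ℕ → ℂ) (k : ℕ) :
    hat Q (fun n => a * c n) k = a * hat Q c k := by
  unfold hat
  rw [mul_sum]
  apply sum_congr rfl
  intro n _
  ring

theorem hat_sum {ι : Type*} (s : Finset ι) (Q : ℕ) (c : ι → ℕ → ℂ) (k : ℕ) :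
    hat Q (fun n => ∑ i ∈ s, c i n) k = ∑ i ∈ s, hat Q (c i) k := by
  unfold hat
  simp_rw [sum_mul]
  rw [sum_comm]

end Pool.Agent.V7H5.ET
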