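import Mathlib

set_option autoImplicit false

namespace Pool.Agent.V7H5.ET

theorem ax1 (η : ℝ) : 1 - 4 * η ≤ (1 - 2 * η) ^ 2 := by nlinarith [sq_nonneg η]
theorem ax2 (η : ℝ) : 1 - 5 * η ≤ (1 - 4 * η) * (1 - η) := by nlinarith [sq_nonneg η]
theorem ax3 (η : ℝ) : (1 - 7 * η) * (1 + 2 * η) ≤ 1 - 5 * η := by nlinarith [sq_nonneg η]
theorem ax4 (η : ℝ) : (1 - 10 * η) * (1 + η) ≤ 1 - 9 * η := by nlinarith [sq_nonneg η]
theorem ax5 (η : ℝ) : (1 - 11 * η) * (1 + η) ≤ 1 - 10 * η := by nlinarith [sq_nonneg η]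

theorem pow_lower {m : ℕ} {S η : ℝ} (hS : 0 < S) (h1 : 2 * (m : ℝ) ≤ S)
    (h2 : 2 * (m : ℝ) ^ 2 ≤ η * S) : (1 - η) * S ^ m ≤ (S - 2 * m) ^ m := by
  have h13 : S - 2 * m = S * (1 + (-(2 * m / S))) := by field_simp; ring
  rw [h13, mul_pow, mul_comm]
  apply mul_le_mul_of_nonneg_left _ (by positivity)
  have h14 : (-2 : ℝ) ≤ -(2 * m / S) := by
    rw [neg_le_neg_iff, div_le_iff₀ hS]; linarith
  have h15 := one_add_mul_le_pow h14 m
  refine le_trans ?_ h15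
  have h16 : (m : ℝ) * (2 * m / S) ≤ η := by
    rw [← mul_div_assoc, div_le_iff₀ hS]
    linarith
  linarith

/-- parameters -/
theorem par1 {K ε : ℝ} (hK : 0 ≤ K) (hε : 0 < ε) :
    ∃ η : ℝ, 0 < η ∧ η ≤ 1 / 20 ∧ 11 * η * K ≤ ε := by
  refine ⟨min (1 / 20) (ε / (11 * (K + 1))), ?_, min_le_left _ _, ?_⟩
  · apply lt_min (by norm_num); positivity
  · have h1 : min (1 / 20) (ε / (11 * (K + 1))) ≤ ε / (11 * (K + 1)) := min_le_right _ _
    have h2 : 11 * (ε / (11 * (K + 1))) * K ≤ ε := by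
      have : 11 * (ε / (11 * (K + 1))) * K = ε * (K / (K + 1)) := by field_simp
      rw [this]
      have h3 : K / (K + 1) ≤ 1 := by rw [div_le_one (by positivity)]; linarith
      nlinarith
    refine le_trans ?_ h2
    gcongr

/-- the largeness conditions -/
structure Big (m : ℕ) (η c3 CE c5 c6 S : ℝ) : Prop where
  b0 : 1 ≤ S
  b1 : 2 * (m : ℝ) ^ 2 ≤ η * S
  b2 : 2 * (m : ℝ) ≤ η * S
  b3 : 2 * c3 ≤ η * S
  b4 : 2 * CE ≤ η * S
  b5 : c5 ≤ η * S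
  b6 : c6 ≤ η * S

theorem big_exists (m : ℕ) {η c3 CE c5 c6 : ℝ} (hη : 0 < η) (h3 : 0 ≤ c3) (h4 : 0 ≤ CE)
    (h5 : 0 ≤ c5) (h6 : 0 ≤ c6) : ∃ S0 : ℝ, 1 ≤ S0 ∧ ∀ S, S0 ≤ S → Big m η c3 CE c5 c6 S := by
  have a1 : 0 ≤ 2 * (m : ℝ) ^ 2 / η := by positivity
  have a2 : 0 ≤ 2 * (m : ℝ) / η := by positivity
  have a3 : 0 ≤ 2 * c3 / η := by positivity
  have a4 : 0 ≤ 2 * CE / η := by positivity
  have a5 : 0 ≤ c5 / η := by positivity
  have a6 : 0 ≤ c6 / η := by positivity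
  refine ⟨1 + 2 * m ^ 2 / η + 2 * m / η + 2 * c3 / η + 2 * CE / η + c5 / η + c6 / η,
    by linarith, ?_⟩
  intro S hS
  refine ⟨by linarith, ?_, ?_, ?_, ?_, ?_, ?_⟩ <;>
  · rw [mul_comm η, ← div_le_iff₀ hη]
    linarith

theorem st_fr {m : ℕ} {F K CM s2 fr S M : ℝ} (hF : 0 ≤ F) (hK : 0 ≤ K) (hCM : 0 ≤ CM)
    (hS : 0 ≤ S) (hs : s2 = S ^ (m + 2)) (h3 : fr ^ (m + 2) ≤ 2 * F * K * M)
    (k2 : M ≤ CM * s2) : fr ≤ (1 + 2 * F * K * CM) * S := by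
  have hs2 : 0 ≤ s2 := by rw [hs]; positivity
  have h0 : 0 ≤ 2 * F * K * CM := by positivity
  have hCf1 : 1 ≤ 1 + 2 * F * K * CM := by linarith
  have h10 : fr ^ (m + 2) ≤ ((1 + 2 * F * K * CM) * S) ^ (m + 2) := by
    rw [mul_pow, ← hs]
    have h11 : 2 * F * K * M ≤ 2 * F * K * (CM * s2) :=
      mul_le_mul_of_nonneg_left k2 (by positivity)
    have h12 : 1 + 2 * F * K * CM ≤ (1 + 2 * F * K * CM) ^ (m + 2) :=
      le_self_pow₀ hCf1 (by omega)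
    calc fr ^ (m + 2) ≤ 2 * F * K * M := h3
      _ ≤ (2 * F * K * CM) * s2 := by linarith
      _ ≤ (1 + 2 * F * K * CM) ^ (m + 2) * s2 :=
        mul_le_mul_of_nonneg_right (by linarith) hs2
  exact le_of_pow_le_pow_left₀ (by omega) (by positivity) h10

theorem st_a2 {m : ℕ} {η P K c3 S s g a2 : ℝ} (hη : 0 < η) (hK : 0 ≤ K) (hS : 0 < S) (hs0 : 0 < s)
    (hs : s = S ^ m) (hc3 : c3 = (1 + 1 / η) * P ^ 2 * K * m ^ 2) (hb : 2 * c3 ≤ η * S)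
    (hg : s / 2 ≤ g)
    (h6 : a2 ≤ (1 + η) * g + (1 + 1 / η) * (P ^ 2 * K * (m * (m - 1) * S ^ (m - 1)))) :
    a2 ≤ (1 + 2 * η) * g := by
  have h10 : (1 + 1 / η) * (P ^ 2 * K * (m * (m - 1) * S ^ (m - 1))) * S ≤ c3 * s := by
    rcases Nat.eq_zero_or_pos m with hm | hm
    · have hc30 : 0 ≤ c3 := by rw [hc3]; positivity
      rw [hm]
      simp only [Nat.cast_zero, zero_mul, mul_zero]
      positivity
    · have e1 : S ^ (m - 1) * S = s := by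
        rw [hs, ← pow_succ, Nat.sub_add_cancel hm]
      have e2 : (1 + 1 / η) * (P ^ 2 * K * (m * (m - 1) * S ^ (m - 1))) * S =
          (1 + 1 / η) * P ^ 2 * K * (m * (m - 1)) * s := by
        rw [← e1]; ring
      rw [e2, hc3]
      apply mul_le_mul_of_nonneg_right _ hs0.le
      apply mul_le_mul_of_nonneg_left _ (by positivity)
      have : (0 : ℝ) ≤ m := by positivity
      nlinarith
  have h11 : (1 + 1 / η) * (P ^ 2 * K * (m * (m - 1) * S ^ (m - 1))) ≤ η * g := by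
    have h12 : c3 * s ≤ (η * g) * S := by
      calc c3 * s ≤ (η * S / 2) * s := by
            apply mul_le_mul_of_nonneg_right _ hs0.le; linarith
        _ = (η * S) * (s / 2) := by ring
        _ ≤ (η * S) * g := mul_le_mul_of_nonneg_left hg (by positivity)
        _ = _ := by ring
    exact le_of_mul_le_mul_right (h10.trans h12) hS
  linarith

theorem st_T {m : ℕ} {η S s g b2 T E CE : ℝ} (hη : 0 < η) (hS : 0 < S) (hs0 : 0 < s)
    (hg0 : 0 ≤ g) (hg : s / 2 ≤ g) (hb : 2 * CE ≤ η * S) (hb2 : 2 * (m : ℝ) ≤ η * S)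
    (h5 : (m + 1) * (S - 2 * m) * g ≤ b2) (h7 : b2 ≤ T + E) (hE : E ≤ CE * s) :
    (1 - 2 * η) * ((m + 1) * S * g) ≤ T := by
  have hm : (0 : ℝ) ≤ m := by positivity
  have h10 : (m + 1) * ((1 - η) * S) * g ≤ b2 := by
    refine le_trans ?_ h5
    apply mul_le_mul_of_nonneg_right _ hg0
    apply mul_le_mul_of_nonneg_left _ (by positivity)
    linarith
  have h11 : CE * s ≤ η * ((m + 1) * S * g) := by
    calc CE * s ≤ (η * S / 2) * s := by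
          apply mul_le_mul_of_nonneg_right _ hs0.le; linarith
      _ = (η * S) * (s / 2) := by ring
      _ ≤ (η * S) * g := mul_le_mul_of_nonneg_left hg (by positivity)
      _ ≤ (η * S) * g * (m + 1) := by
        have : 0 ≤ (η * S) * g := by positivity
        nlinarith
      _ = _ := by ring
  have h12 : (m + 1) * ((1 - η) * S) * g = (1 - 2 * η) * ((m + 1) * S * g) +
      η * ((m + 1) * S * g) := by ring
  linarith

theorem st_W {m : ℕ} {η S s g a2 T W P : ℝ} (hη : 0 < η) (hη1 : η ≤ 1 / 20) (hS : 0 < S)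
    (hs0 : 0 < s) (hP : 0 ≤ P) (hg : (1 - η) * s * P ≤ g) (hg0 : 0 < g) (hW : 0 ≤ W)
    (k6 : a2 ≤ (1 + 2 * η) * g) (k7 : (1 - 2 * η) * ((m + 1) * S * g) ≤ T)
    (h8 : T ^ 2 ≤ a2 * W) :
    (1 - 7 * η) * (((m + 1) ^ 2 * P) * (S ^ 2 * s)) ≤ W := by
  have k8 : (1 - 4 * η) * ((m + 1) ^ 2 * S ^ 2 * g) ≤ (1 + 2 * η) * W := by
    have h10 : ((1 - 2 * η) * ((m + 1) * S * g)) ^ 2 ≤ T ^ 2 :=
      pow_le_pow_left₀ (by
        apply mul_nonneg (by linarith); positivity) k7 2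
    have h11 : a2 * W ≤ (1 + 2 * η) * g * W := mul_le_mul_of_nonneg_right k6 hW
    have h12 : ((1 - 4 * η) * ((m + 1) ^ 2 * S ^ 2 * g)) * g ≤ ((1 + 2 * η) * W) * g := by
      have h14 : 0 ≤ ((m + 1) ^ 2 * S ^ 2 * g) * g := by positivity
      have h15 := mul_le_mul_of_nonneg_right (ax1 η) h14
      have e1 : (1 - 2 * η) ^ 2 * (((m + 1) ^ 2 * S ^ 2 * g) * g) =
        ((1 - 2 * η) * ((m + 1) * S * g)) ^ 2 := by ring
      rw [e1] at h15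
      linarith
    exact le_of_mul_le_mul_right h12 hg0
  have h10 : (1 - 5 * η) * (((m + 1) ^ 2 * P) * (S ^ 2 * s)) ≤ (1 + 2 * η) * W := by
    have h11 : (1 - 4 * η) * ((m + 1) ^ 2 * S ^ 2 * ((1 - η) * s * P)) ≤
        (1 - 4 * η) * ((m + 1) ^ 2 * S ^ 2 * g) := by
      apply mul_le_mul_of_nonneg_left _ (by linarith)
      exact mul_le_mul_of_nonneg_left hg (by positivity)
    have h12 : (1 - 4 * η) * ((m + 1) ^ 2 * S ^ 2 * ((1 - η) * s * P)) =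
        ((1 - 4 * η) * (1 - η)) * (((m + 1) ^ 2 * P) * (S ^ 2 * s)) := by ring
    have h14 : 0 ≤ ((m + 1) ^ 2 * P) * (S ^ 2 * s) := by positivity
    have h15 := mul_le_mul_of_nonneg_right (ax2 η) h14
    linarith
  have h17 : 0 ≤ ((m + 1) ^ 2 * P) * (S ^ 2 * s) := by positivity
  have h18 := mul_le_mul_of_nonneg_right (ax3 η) h17
  have h19 : (1 + 2 * η) * ((1 - 7 * η) * (((m + 1) ^ 2 * P) * (S ^ 2 * s))) ≤ (1 + 2 * η) * W := by
    linarith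
  exact le_of_mul_le_mul_left h19 (by linarith)

theorem st_W2 {m L : ℕ} {η F K cP CM c5 κ S s M D W : ℝ} (hη : 0 < η) (hS : 1 ≤ S)
    (hs0 : 0 < s) (hκ : 1 ≤ κ) (hc5 : c5 = (1 + 1 / η) * 2 * F ^ 2 * K * ((m + 2) * (m + 1)))
    (hb : c5 ≤ η * S) (k2 : M ≤ CM * (S ^ 2 * s))
    (hL : (1 + 1 / η) * 2 * (F ^ 2 * cP ^ 2) * (2 * CM) ≤ η * κ * (L + 1))
    (h9 : W ≤ (1 + η) * (F ^ 2 * D) + (1 + 1 / η) * (2 * (F ^ 2 * K *
        ((m + 2) * (m + 1) * (S * s)) + F ^ 2 * cP ^ 2 * (2 * M / (L + 1))))) :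
    W ≤ (1 + η) * (F ^ 2 * D) + 2 * η * (κ * (S ^ 2 * s)) := by
  have hSp : 0 < S := by linarith
  have h10 : (1 + 1 / η) * (2 * (F ^ 2 * K * ((m + 2) * (m + 1) * (S * s)))) ≤
      η * (κ * (S ^ 2 * s)) := by
    have e1 : (1 + 1 / η) * (2 * (F ^ 2 * K * ((m + 2) * (m + 1) * (S * s)))) =
        c5 * (S * s) := by rw [hc5]; ring
    rw [e1]
    calc c5 * (S * s) ≤ (η * S) * (S * s) := mul_le_mul_of_nonneg_right hb (by positivity)
      _ = η * (1 * (S ^ 2 * s)) := by ring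
      _ ≤ η * (κ * (S ^ 2 * s)) := by gcongr
  have h11 : (1 + 1 / η) * (2 * (F ^ 2 * cP ^ 2 * (2 * M / (L + 1)))) ≤
      η * (κ * (S ^ 2 * s)) := by
    have e1 : (1 + 1 / η) * (2 * (F ^ 2 * cP ^ 2 * (2 * M / (L + 1)))) =
        ((1 + 1 / η) * 2 * (F ^ 2 * cP ^ 2) * 2) * M / (L + 1) := by ring
    rw [e1, div_le_iff₀ (by positivity)]
    calc ((1 + 1 / η) * 2 * (F ^ 2 * cP ^ 2) * 2) * M ≤
        ((1 + 1 / η) * 2 * (F ^ 2 * cP ^ 2) * 2) * (CM * (S ^ 2 * s)) :=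
          mul_le_mul_of_nonneg_left k2 (by positivity)
      _ = ((1 + 1 / η) * 2 * (F ^ 2 * cP ^ 2) * (2 * CM)) * (S ^ 2 * s) := by ring
      _ ≤ (η * κ * (L + 1)) * (S ^ 2 * s) := mul_le_mul_of_nonneg_right hL (by positivity)
      _ = _ := by ring
  have h12 : (1 + 1 / η) * (2 * (F ^ 2 * K * ((m + 2) * (m + 1) * (S * s)) +
      F ^ 2 * cP ^ 2 * (2 * M / (L + 1)))) =
      (1 + 1 / η) * (2 * (F ^ 2 * K * ((m + 2) * (m + 1) * (S * s)))) +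
      (1 + 1 / η) * (2 * (F ^ 2 * cP ^ 2 * (2 * M / (L + 1)))) := by ring
  rw [h12] at h9
  linarith

theorem st_fin {m : ℕ} {η ε F P K U D M s2 W : ℝ} (hη : 0 < η) (hη1 : η ≤ 1 / 20) (hP : 0 < P)
    (hF : F = (m + 2) * (m + 1) * P) (hs : 0 < s2) (hU0 : 0 < U) (hU : U ≤ K * M)
    (hη2 : 11 * η * K ≤ ε) (hM : 0 < M)
    (k1 : F * U ≤ (1 + η) * s2)
    (k9 : (1 - 7 * η) * (((m + 1) ^ 2 * P) * s2) ≤ W)
    (k10 : W ≤ (1 + η) * (F ^ 2 * D) + 2 * η * (((m + 1) ^ 2 * P) * s2)) :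
    ((m : ℝ) + 1) / (m + 2) * U - ε * M ≤ D := by
  have hFpos : 0 < F := by rw [hF]; positivity
  have hκ0 : 0 ≤ ((m : ℝ) + 1) ^ 2 * P := by positivity
  have k11 : (1 - 9 * η) * (((m + 1) ^ 2 * P) * s2) ≤ (1 + η) * (F ^ 2 * D) := by linarith
  have k12 : (1 - 10 * η) * (((m + 1) ^ 2 * P) * s2) ≤ F ^ 2 * D := by
    have h11 := mul_le_mul_of_nonneg_right (ax4 η) (by positivity : 0 ≤ ((m + 1) ^ 2 * P) * s2)
    have h12 : (1 + η) * ((1 - 10 * η) * (((m + 1) ^ 2 * P) * s2)) ≤ (1 + η) * (F ^ 2 * D) := by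
      linarith
    exact le_of_mul_le_mul_left h12 (by linarith)
  have k13 : (1 - 11 * η) * (((m + 1) ^ 2 * P) * (F * U)) ≤ F ^ 2 * D := by
    have h11 : (1 - 11 * η) * (((m + 1) ^ 2 * P) * (F * U)) ≤
        (1 - 11 * η) * (((m + 1) ^ 2 * P) * ((1 + η) * s2)) := by
      apply mul_le_mul_of_nonneg_left _ (by linarith)
      exact mul_le_mul_of_nonneg_left k1 (by positivity)
    have h12 := mul_le_mul_of_nonneg_right (ax5 η) (by positivity : 0 ≤ ((m + 1) ^ 2 * P) * s2)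
    linarith
  have k14 : (1 - 11 * η) * (((m : ℝ) + 1) / (m + 2) * U) ≤ D := by
    have h10 : ((m + 1) ^ 2 * P) * (F * U) = F ^ 2 * (((m : ℝ) + 1) / (m + 2) * U) := by
      rw [hF]
      field_simp
    rw [h10] at k13
    have h11 : F ^ 2 * ((1 - 11 * η) * (((m : ℝ) + 1) / (m + 2) * U)) ≤ F ^ 2 * D := by linarith
    exact le_of_mul_le_mul_left h11 (by positivity)
  have hratio : ((m : ℝ) + 1) / (m + 2) ≤ 1 := by
    rw [div_le_one (by positivity)]; linarith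
  have k15 : 11 * η * (((m : ℝ) + 1) / (m + 2) * U) ≤ ε * M := by
    calc 11 * η * (((m : ℝ) + 1) / (m + 2) * U) ≤ 11 * η * (1 * (K * M)) := by gcongr
      _ = (11 * η * K) * M := by ring
      _ ≤ ε * M := mul_le_mul_of_nonneg_right hη2 hM.le
  linarith

/-- the asymptotic part: all the numbers are real numbers -/
theorem scal (m : ℕ) {K cP ε : ℝ} (hK : 0 ≤ K) (hc : 0 ≤ cP) (hε : 0 < ε) :
    ∃ η : ℝ, 0 < η ∧ ∃ L : ℕ, ∃ M0 : ℝ, 0 < M0 ∧ ∀ M : ℝ, M0 ≤ M →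
      ∀ S g a2 b2 W D U fr T : ℝ, 0 ≤ S → 0 ≤ D → 0 ≤ fr → 0 ≤ W →
      ((m + 2).factorial : ℝ) * U ≤ S ^ (m + 2) +
        (m + 2).factorial * ((m + 2) * (m + 1) * S ^ (m + 1)) →
      U ≤ K * M →
      fr ^ (m + 2) ≤ 2 * (m + 2).factorial * K * M →
      (2 * (m : ℝ) ≤ S → m.factorial * (S - 2 * m) ^ m ≤ g) →
      (m + 1) * (S - 2 * m) * g ≤ b2 →
      a2 ≤ (1 + η) * g + (1 + 1 / η) * (m.factorial ^ 2 * K * (m * (m - 1) * S ^ (m - 1))) →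
      b2 ≤ T + (m + 2).factorial * fr ^ m * (cP * (2 * L + 4)) →
      T ^ 2 ≤ a2 * W →
      W ≤ (1 + η) * ((m + 2).factorial ^ 2 * D) + (1 + 1 / η) * (2 * ((m + 2).factorial ^ 2 * K *
        ((m + 2) * (m + 1) * S ^ (m + 1)) +
          (m + 2).factorial ^ 2 * cP ^ 2 * (2 * M / (L + 1)))) →
      ((m : ℝ) + 1) / (m + 2) * U - ε * M ≤ D := by
  have hFP : (((m + 2).factorial : ℕ) : ℝ) = (m + 2) * (m + 1) * (m.factorial : ℝ) := by
    rw [Nat.factorial_succ, Nat.factorial_succ]; push_cast; ring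
  have hP1 : (1 : ℝ) ≤ (m.factorial : ℝ) := by exact_mod_cast Nat.factorial_pos m
  have hF1 : (1 : ℝ) ≤ ((m + 2).factorial : ℝ) := by exact_mod_cast Nat.factorial_pos _
  generalize (((m + 2).factorial : ℕ) : ℝ) = F at *
  generalize ((m.factorial : ℕ) : ℝ) = P at *
  have hm0 : (0 : ℝ) ≤ m := by positivity
  obtain ⟨η, hη0, hη1, hη2⟩ := par1 hK hε
  have hκ1 : 1 ≤ ((m : ℝ) + 1) ^ 2 * P := by nlinarith
  have hCM0 : 0 < 2 / (F * ε) := by positivity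
  obtain ⟨CM, hCM⟩ : ∃ CM, CM = 2 / (F * ε) := ⟨_, rfl⟩
  rw [← hCM] at hCM0
  obtain ⟨Cf, hCf⟩ : ∃ Cf, Cf = 1 + 2 * F * K * CM := ⟨_, rfl⟩
  have hCf0 : 0 ≤ Cf := by rw [hCf]; positivity
  obtain ⟨L, hL⟩ : ∃ L : ℕ, (1 + 1 / η) * 2 * (F ^ 2 * cP ^ 2) * (2 * CM) ≤
      η * ((m + 1) ^ 2 * P) * (L + 1) := by
    obtain ⟨L, hL⟩ := exists_nat_ge ((1 + 1 / η) * 2 * (F ^ 2 * cP ^ 2) * (2 * CM) /
      (η * ((m + 1) ^ 2 * P)))
    refine ⟨L, ?_⟩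
    rw [div_le_iff₀ (by positivity)] at hL
    have : 0 ≤ η * ((m + 1) ^ 2 * P) := by positivity
    linarith
  obtain ⟨CE, hCE⟩ : ∃ CE, CE = F * Cf ^ m * (cP * (2 * L + 4)) := ⟨_, rfl⟩
  have hCE0 : 0 ≤ CE := by rw [hCE]; positivity
  obtain ⟨c3, hc3⟩ : ∃ c3, c3 = (1 + 1 / η) * P ^ 2 * K * m ^ 2 := ⟨_, rfl⟩
  have hc30 : 0 ≤ c3 := by rw [hc3]; positivity
  obtain ⟨c5, hc5⟩ : ∃ c5, c5 = (1 + 1 / η) * 2 * F ^ 2 * K * ((m + 2) * (m + 1)) := ⟨_, rfl⟩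
  have hc50 : 0 ≤ c5 := by rw [hc5]; positivity
  obtain ⟨c6, hc6⟩ : ∃ c6, c6 = F * (((m : ℝ) + 2) * (m + 1)) := ⟨_, rfl⟩
  have hc60 : 0 ≤ c6 := by rw [hc6]; positivity
  obtain ⟨S0, hS01, big⟩ := big_exists m hη0 hc30 hCE0 hc50 hc60
  refine ⟨η, hη0, L, (S0 ^ (m + 2) + c6 * S0 ^ (m + 1)) / (F * ε) + 1, by positivity, ?_⟩
  intro M hM S g a2 b2 W D U fr T hS hD hfr hW h1 h2 h3 h4 h5 h6 h7 h8 h9
  have hMpos : 0 < M := by
    have : 0 ≤ (S0 ^ (m + 2) + c6 * S0 ^ (m + 1)) / (F * ε) := by positivity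
    linarith
  have hratio : ((m : ℝ) + 1) / (m + 2) ≤ 1 := by
    rw [div_le_one (by positivity)]; linarith
  have hratio0 : 0 ≤ ((m : ℝ) + 1) / (m + 2) := by positivity
  rcases le_or_gt U (ε * M) with hU | hU
  · have hεM : 0 ≤ ε * M := by positivity
    have : ((m : ℝ) + 1) / (m + 2) * U ≤ ε * M := by
      rcases le_or_gt 0 U with hU0 | hU0
      · calc ((m : ℝ) + 1) / (m + 2) * U ≤ 1 * U := mul_le_mul_of_nonneg_right hratio hU0
          _ ≤ ε * M := by linarith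
      · have := mul_nonpos_of_nonneg_of_nonpos hratio0 hU0.le
        linarith
    linarith
  have hFU : F * (ε * M) < F * U := mul_lt_mul_of_pos_left hU (by linarith)
  -- `S` is large
  have hSS : S0 ≤ S := by
    by_contra hcon
    push Not at hcon
    have e1 : S ^ (m + 2) ≤ S0 ^ (m + 2) := pow_le_pow_left₀ hS hcon.le _
    have e2 : S ^ (m + 1) ≤ S0 ^ (m + 1) := pow_le_pow_left₀ hS hcon.le _
    have e4 : F * ((m + 2) * (m + 1) * S ^ (m + 1)) ≤ c6 * S0 ^ (m + 1) := by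
      have := mul_le_mul_of_nonneg_left e2 hc60
      refine le_trans (le_of_eq ?_) this
      rw [hc6]; ring
    have e5 : (S0 ^ (m + 2) + c6 * S0 ^ (m + 1)) ≤ (F * ε) * M := by
      rw [← div_le_iff₀' (by positivity)]
      linarith
    linarith
  obtain ⟨hS1, B1, B2, B3, B4, B5, B6⟩ := big S hSS
  have hSp : 0 < S := by linarith
  have hs : 0 < S ^ m := by positivity
  obtain ⟨s, hsdef⟩ : ∃ s, s = S ^ m := ⟨_, rfl⟩
  rw [← hsdef] at hs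
  have hs1 : S ^ (m + 1) = S * s := by rw [hsdef, pow_succ]; ring
  have hs2 : S ^ (m + 2) = S ^ 2 * s := by rw [hsdef, pow_add]; ring
  rw [hs1] at h1 h9
  rw [hs2] at h1
  have h14 : 0 < S ^ 2 * s := by positivity
  have k1 : F * U ≤ (1 + η) * (S ^ 2 * s) := by
    have e1 : F * ((m + 2) * (m + 1) * (S * s)) = c6 * (S * s) := by rw [hc6]; ring
    rw [e1] at h1
    have h10 : c6 * (S * s) ≤ (η * S) * (S * s) :=
      mul_le_mul_of_nonneg_right B6 (by positivity)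
    linarith
  have k2 : M ≤ CM * (S ^ 2 * s) := by
    have h10 : (1 + η) * (S ^ 2 * s) ≤ 2 * (S ^ 2 * s) :=
      mul_le_mul_of_nonneg_right (by linarith) h14.le
    rw [hCM, div_mul_eq_mul_div, le_div_iff₀ (by positivity)]
    linarith
  have k3 : fr ≤ Cf * S := by
    rw [hCf]
    exact st_fr (by linarith) hK hCM0.le hS hs2.symm h3 k2
  have k4 : F * fr ^ m * (cP * (2 * L + 4)) ≤ CE * s := by
    have h10 : fr ^ m ≤ (Cf * S) ^ m := pow_le_pow_left₀ hfr k3 m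
    rw [mul_pow] at h10
    rw [hCE]
    have h11 : 0 ≤ cP * (2 * L + 4) := by positivity
    calc F * fr ^ m * (cP * (2 * L + 4)) ≤ F * (Cf ^ m * S ^ m) * (cP * (2 * L + 4)) := by gcongr
      _ = F * Cf ^ m * (cP * (2 * L + 4)) * s := by rw [hsdef]; ring
  have k5 : (1 - η) * s * P ≤ g := by
    have h20 : 2 * (m : ℝ) ≤ S := B2.trans (by
      calc η * S ≤ 1 * S := mul_le_mul_of_nonneg_right (by linarith) hS
        _ = S := one_mul S)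
    have h10 := pow_lower hSp h20 B1
    have h11 := h4 h20
    rw [← hsdef] at h10
    have h12 := mul_le_mul_of_nonneg_left h10 (by linarith : 0 ≤ P)
    linarith
  have k5' : s / 2 ≤ g := by
    refine le_trans ?_ k5
    have h10 : (1 : ℝ) / 2 ≤ (1 - η) := by linarith
    have h11 : 1 / 2 * s ≤ (1 - η) * s := mul_le_mul_of_nonneg_right h10 hs.le
    have h12 : 0 ≤ (1 - η) * s := mul_nonneg (by linarith) hs.le
    have h13 : (1 - η) * s * 1 ≤ (1 - η) * s * P := mul_le_mul_of_nonneg_left hP1 h12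
    linarith
  have hgpos : 0 < g := by linarith [half_pos hs]
  have k6 : a2 ≤ (1 + 2 * η) * g := st_a2 hη0 hK hSp hs hsdef hc3 B3 k5' h6
  have k7 := st_T hη0 hSp hs hgpos.le k5' B4 B2 h5 h7 k4
  have k9 := st_W hη0 hη1 hSp hs (by linarith) k5 hgpos hW k6 k7 h8
  have k10 := st_W2 hη0 hS1 hs hκ1 hc5 B5 k2 hL h9
  exact st_fin hη0 hη1 (by linarith) hFP h14 (lt_trans (by positivity) hU) h2 hη2 hMpos k1 k9 k10

end Pool.Agent.V7H5.ET
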