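import Pool.Agent.V7H5.ET.Main
import Pool.Agent.V7H5.ET.Scal

set_option autoImplicit false

namespace Pool.Agent.V7H5.ET

open Finset

theorem geom_le {x : ℝ} (hx0 : 0 ≤ x) (hx1 : x < 1) (Q : ℕ) :
    ∑ n ∈ range Q, x ^ n ≤ 1 / (1 - x) := by
  rw [le_div_iff₀ (by linarith), geom_sum_mul_neg]
  have : 0 ≤ x ^ Q := by positivity
  linarith

theorem inv_bound {x : ℝ} (hx0 : 0 ≤ x) (hx1 : x < 1) (L : ℕ) (hL : (L : ℝ) * (1 - x) ≤ 1 / 2) :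
    1 / (1 - x ^ (L + 1)) ≤ 2 * (1 / (1 - x)) / (L + 1) := by
  have h1 : 1 / 2 ≤ x ^ L := by
    have := one_add_mul_le_pow (a := x - 1) (by linarith) L
    rw [add_sub_cancel] at this
    linarith
  have h2 : ((L : ℝ) + 1) * (1 / 2) ≤ ∑ i ∈ range (L + 1), x ^ i := by
    have : ∑ i ∈ range (L + 1), (1 / 2 : ℝ) ≤ ∑ i ∈ range (L + 1), x ^ i := by
      apply sum_le_sum
      intro i hi
      rw [mem_range] at hi
      exact h1.trans (pow_le_pow_of_le_one hx0 hx1.le (by omega))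
    rw [sum_const, card_range, nsmul_eq_mul] at this
    push_cast at this
    exact this
  have h3 := geom_sum_mul_neg x (L + 1)
  have hx : 0 < 1 - x := by linarith
  have h4 : ((L : ℝ) + 1) * (1 / 2) * (1 - x) ≤ 1 - x ^ (L + 1) := by
    rw [← h3]
    exact mul_le_mul_of_nonneg_right h2 hx.le
  have h5 : 0 < ((L : ℝ) + 1) * (1 / 2) * (1 - x) := by positivity
  calc 1 / (1 - x ^ (L + 1)) ≤ 1 / (((L : ℝ) + 1) * (1 / 2) * (1 - x)) :=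
        one_div_le_one_div_of_le h5 h4
    _ = 2 * (1 / (1 - x)) / (L + 1) := by field_simp

theorem U_le {B : Finset ℕ} {x : ℝ} (hx0 : 0 ≤ x) (hx1 : x < 1) {h K Q : ℕ}
    (hK : ∀ n, uu B h n ≤ K) :
    ∑ n ∈ range Q, (uu B h n : ℝ) * x ^ n ≤ K * (1 / (1 - x)) := by
  refine le_trans ?_ (mul_le_mul_of_nonneg_left (geom_le hx0 hx1 Q) (by positivity))
  rw [mul_sum]
  apply sum_le_sum
  intro n _
  apply mul_le_mul_of_nonneg_right _ (by positivity)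
  exact_mod_cast hK n

theorem FU_le {B : Finset ℕ} {x : ℝ} (hx0 : 0 ≤ x) (hx1 : x ≤ 1) {h Q : ℕ}
    (hQ : ∀ s ∈ ms B h, s.sum < Q) :
    (h.factorial : ℝ) * ∑ n ∈ range Q, (uu B h n : ℝ) * x ^ n ≤
      (∑ a ∈ B, x ^ a) ^ h + h.factorial * (h * (h - 1) * (∑ a ∈ B, x ^ a) ^ (h - 1)) := by
  have h1 := sum_uu_sub_le hx0 hx1 hQ
  have h2 : ∑ n ∈ range Q, ((uu B h n : ℝ) - nn B h n) * x ^ n =
      ∑ n ∈ range Q, (uu B h n : ℝ) * x ^ n - ∑ n ∈ range Q, (nn B h n : ℝ) * x ^ n := by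
    rw [← sum_sub_distrib]
    apply sum_congr rfl
    intro n _
    ring
  rw [h2] at h1
  have h3 : (h.factorial : ℝ) * ∑ n ∈ range Q, (nn B h n : ℝ) * x ^ n ≤ (∑ a ∈ B, x ^ a) ^ h := by
    rw [pow_expand' x hQ, mul_sum]
    apply sum_le_sum
    intro n _
    rw [← mul_assoc]
    apply mul_le_mul_of_nonneg_right _ (by positivity)
    exact_mod_cast rr_ge B h n
  have h4 : (0 : ℝ) ≤ h.factorial := by positivity
  nlinarith [mul_le_mul_of_nonneg_left h1 h4]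

theorem fr_le {B : Finset ℕ} {ρ : ℝ} (hx0 : 0 ≤ ρ) (hx1 : ρ < 1) {h K Q : ℕ}
    (hQ : ∀ s ∈ ms B h, s.sum < Q) (hK : ∀ n, uu B h n ≤ K) :
    (∑ a ∈ B, ρ ^ a) ^ h ≤ 2 * h.factorial * K * (1 / (1 - ρ ^ 2)) := by
  rw [pow_expand' ρ hQ]
  have h1 : ∑ n ∈ range Q, (rr B h n : ℝ) * ρ ^ n ≤ (h.factorial * K) * (1 / (1 - ρ)) := by
    refine le_trans ?_ (mul_le_mul_of_nonneg_left (geom_le hx0 hx1 Q) (by positivity))
    rw [mul_sum]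
    apply sum_le_sum
    intro n _
    apply mul_le_mul_of_nonneg_right _ (by positivity)
    have := rr_le B h n
    have h2 := Nat.mul_le_mul_left h.factorial (hK n)
    exact_mod_cast this.trans h2
  refine h1.trans ?_
  have h2 : 1 / (1 - ρ) ≤ 2 * (1 / (1 - ρ ^ 2)) := by
    have e1 : 1 - ρ ^ 2 = (1 - ρ) * (1 + ρ) := by ring
    have hp : 0 < 1 - ρ := by linarith
    rw [e1, div_le_iff₀ hp]
    have : 2 * (1 / ((1 - ρ) * (1 + ρ))) * (1 - ρ) = 2 / (1 + ρ) := by field_simp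
    rw [this, le_div_iff₀ (by linarith)]
    linarith
  have h3 : (0 : ℝ) ≤ h.factorial * K := by positivity
  calc (h.factorial * K : ℝ) * (1 / (1 - ρ)) ≤ (h.factorial * K) * (2 * (1 / (1 - ρ ^ 2))) :=
        mul_le_mul_of_nonneg_left h2 h3
    _ = _ := by ring

/-- the variance law for finite sets -/
theorem var_fin (m : ℕ) (K : ℕ) {cP ε : ℝ} (hc : 0 ≤ cP) (hε : 0 < ε) :
    ∃ M0 : ℝ, 0 < M0 ∧ ∀ ρ : ℝ, 0 < ρ → ρ < 1 → M0 ≤ 1 / (1 - ρ ^ 2) →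
      ∀ (ι : Type) [Fintype ι] (c u : ι → ℂ), (∀ i, ‖u i‖ = 1) → ∑ i, ‖c i‖ = cP →
      ∀ (B : Finset ℕ) (Q : ℕ), Q ≠ 0 → ρ ^ Q ≤ 1 / 2 → ρ ^ Q ≤ 1 - ρ →
      (∀ j ≤ m + 2, ∀ s ∈ ms B j, s.sum < Q) → (∀ j ≤ m + 2, ∀ n, uu B j n ≤ K) →
      ((m : ℝ) + 1) / (m + 2) * (∑ n ∈ range Q, (uu B (m + 2) n : ℝ) * (ρ ^ 2) ^ n) -
        ε * (1 / (1 - ρ ^ 2)) ≤ DD Q B (m + 2) c u (ρ ^ 2) := by
  obtain ⟨η, hη, L, M0, hM0, H⟩ := scal m (K := K) (by positivity) hc hε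
  refine ⟨max M0 (2 * L + 1), lt_max_of_lt_left hM0, ?_⟩
  intro ρ hρ0 hρ1 hM ι _ c u hu hcP B Q hQ0 hQ1 hQ2 hQ hK
  have hx0 : 0 ≤ ρ ^ 2 := by positivity
  have hx1 : ρ ^ 2 < 1 := by nlinarith
  have hxp : 0 < 1 - ρ ^ 2 := by linarith
  have hM1 : M0 ≤ 1 / (1 - ρ ^ 2) := (le_max_left _ _).trans hM
  have hM2 : 2 * (L : ℝ) + 1 ≤ 1 / (1 - ρ ^ 2) := (le_max_right _ _).trans hM
  have hL : (L : ℝ) * (1 - ρ ^ 2) ≤ 1 / 2 := by
    rw [le_div_iff₀ hxp] at hM2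
    nlinarith
  obtain ⟨T, hT0, hT1, hT2⟩ := key_ineq (m := m) hQ0 hρ0 hρ1 L hu hQ1 hQ2 (B := B) (c := c)
    (hQ m (by omega)) (hQ (m + 1) (by omega))
  have hS : 0 ≤ ∑ a ∈ B, (ρ ^ 2) ^ a := sum_nonneg fun _ _ => by positivity
  refine H _ hM1 (∑ a ∈ B, (ρ ^ 2) ^ a) (m.factorial ^ 2 * en B (ρ ^ 2) m)
    (∑ n ∈ range Q, (rr B m n : ℝ) ^ 2 * (ρ ^ 2) ^ n)
    (∑ n ∈ range Q, (rr B (m + 1) n : ℝ) ^ 2 * (ρ ^ 2) ^ n)
    (avg Q (fun k => ‖(ff Q B ρ k) ^ (m + 2) - (m + 2).factorial * hat Q (p2 c u ρ L) k‖ ^ 2))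
    (DD Q B (m + 2) c u (ρ ^ 2)) _ (∑ a ∈ B, ρ ^ a) T hS ?_ ?_ ?_ ?_ ?_ ?_ ?_ ?_ ?_ ?_ hT1 ?_
  · exact sum_nonneg fun _ _ => by positivity
  · exact sum_nonneg fun _ _ => by positivity
  · exact avg_nonneg fun _ => by positivity
  · have := FU_le hx0 hx1.le (hQ (m + 2) le_rfl)
    refine this.trans (le_of_eq ?_)
    push_cast
    ring
  · exact U_le hx0 hx1 (hK (m + 2) le_rfl)
  · exact fr_le hρ0.le hρ1 (hQ (m + 2) le_rfl) (hK (m + 2) le_rfl)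
  · intro h
    have h1 := en_low hx0 hx1.le m h m le_rfl
    have h2 : (0 : ℝ) ≤ m.factorial := by positivity
    calc (m.factorial : ℝ) * (∑ a ∈ B, (ρ ^ 2) ^ a - 2 * m) ^ m ≤
        m.factorial * (m.factorial * en B (ρ ^ 2) m) := mul_le_mul_of_nonneg_left h1 h2
      _ = _ := by ring
  · have h1 := rr_sq_ge hx0 (hQ (m + 1) (by omega))
    have h2 := en_step (B := B) hx0 hx1.le m
    refine le_trans ?_ h1
    rw [Nat.factorial_succ]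
    push_cast
    have h3 : (0 : ℝ) ≤ (m + 1) * m.factorial ^ 2 := by positivity
    have h4 := mul_le_mul_of_nonneg_left h2 h3
    calc ((m : ℝ) + 1) * (∑ a ∈ B, (ρ ^ 2) ^ a - 2 * m) * (m.factorial ^ 2 * en B (ρ ^ 2) m) =
        (m + 1) * m.factorial ^ 2 * ((∑ a ∈ B, (ρ ^ 2) ^ a - 2 * m) * en B (ρ ^ 2) m) := by ring
      _ ≤ _ := h4
      _ = _ := by ring
  · exact rr_sq_le hx0 hx1.le (hQ m (by omega)) (hK m (by omega)) hη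
  · rw [hcP] at hT2
    exact hT2
  · have h1 := W_le hQ0 hρ0 hρ1 L (c := c) hu (hQ (m + 2) le_rfl) (hK (m + 2) le_rfl) hη
    rw [hcP] at h1
    refine h1.trans ?_
    have h2 := inv_bound hx0 hx1 L hL
    have h3 : (0 : ℝ) ≤ (m + 2).factorial ^ 2 * cP ^ 2 := by positivity
    have h4 := mul_le_mul_of_nonneg_left h2 h3
    have h5 : 0 ≤ 1 + 1 / η := by positivity
    rw [show m + 2 - 1 = m + 1 by omega]
    push_cast
    rw [show ((m : ℝ) + 2 - 1) = m + 1 by ring]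
    have h6 : 2 * (((m + 2).factorial : ℝ) ^ 2 * K * ((m + 2) * (m + 1) *
        (∑ a ∈ B, (ρ ^ 2) ^ a) ^ (m + 1)) + (m + 2).factorial ^ 2 * cP ^ 2 *
          (1 / (1 - (ρ ^ 2) ^ (L + 1)))) ≤
        2 * (((m + 2).factorial : ℝ) ^ 2 * K * ((m + 2) * (m + 1) *
        (∑ a ∈ B, (ρ ^ 2) ^ a) ^ (m + 1)) + (m + 2).factorial ^ 2 * cP ^ 2 *
          (2 * (1 / (1 - ρ ^ 2)) / (L + 1))) := by linarith
    have h7 := mul_le_mul_of_nonneg_left h6 h5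
    linarith

end Pool.Agent.V7H5.ET
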