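import Pool.Agent.V7H5.ET.Fin

set_option autoImplicit false

namespace Pool.Agent.V7H5.ET

open Finset

/-- number of the multisets of `h` elements of `A` with sum `n` -/
noncomputable def rep (A : Set ℕ) (h n : ℕ) : ℕ :=
  Set.ncard {s : Multiset ℕ | Multiset.card s = h ∧ (∀ a ∈ s, a ∈ A) ∧ s.sum = n}

theorem rep_finite (A : Set ℕ) (h n : ℕ) :
    {s : Multiset ℕ | Multiset.card s = h ∧ (∀ a ∈ s, a ∈ A) ∧ s.sum = n}.Finite := by
  apply (finite_toSet (ms (range (n + 1)) h)).subset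
  rintro s ⟨h1, -, h3⟩
  rw [mem_coe, mem_ms]
  refine ⟨h1, fun a ha => ?_⟩
  rw [mem_range]
  have := Multiset.le_sum_of_mem ha
  omega

theorem uu_le_rep {A : Set ℕ} {B : Finset ℕ} (hB : ∀ a ∈ B, a ∈ A) (j n : ℕ) :
    uu B j n ≤ rep A j n := by
  unfold uu rep
  rw [← Set.ncard_coe_finset]
  apply Set.ncard_le_ncard _ (rep_finite A j n)
  intro s hs
  rw [mem_coe, mem_filter, mem_ms] at hs
  exact ⟨hs.1.1, fun a ha => hB a (hs.1.2 a ha), hs.2⟩

open Classical in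
theorem uu_eq_rep (A : Set ℕ) {N n : ℕ} (hn : n < N) (h : ℕ) :
    uu ((range N).filter (· ∈ A)) h n = rep A h n := by
  unfold uu rep
  rw [← Set.ncard_coe_finset]
  congr 1
  ext s
  rw [mem_coe, mem_filter, mem_ms, Set.mem_setOf_eq]
  constructor
  · rintro ⟨⟨h1, h2⟩, h3⟩
    exact ⟨h1, fun a ha => (mem_filter.mp (h2 a ha)).2, h3⟩
  · rintro ⟨h1, h2, h3⟩
    refine ⟨⟨h1, fun a ha => ?_⟩, h3⟩
    rw [mem_filter, mem_range]
    have := Multiset.le_sum_of_mem ha
    exact ⟨by omega, h2 a ha⟩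

theorem rep_order {A : Set ℕ} {a0 : ℕ} (ha : a0 ∈ A) {j h : ℕ} (hj : j ≤ h) (n : ℕ) :
    rep A j n ≤ rep A h (n + (h - j) * a0) := by
  unfold rep
  apply Set.ncard_le_ncard_of_injOn (fun s => s + Multiset.replicate (h - j) a0) _ _
    (rep_finite A h _)
  · rintro s ⟨h1, h2, h3⟩
    refine ⟨?_, ?_, ?_⟩
    · simp only [Multiset.card_add, Multiset.card_replicate, h1]; omega
    · intro a ha'
      rw [Multiset.mem_add] at ha'
      rcases ha' with h' | h'
      · exact h2 a h'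
      · rw [Multiset.eq_of_mem_replicate h']; exact ha
    · simp only [Multiset.sum_add, Multiset.sum_replicate, h3, smul_eq_mul]
  · intro s _ t _ hst
    exact add_right_cancel hst

theorem uu_bound {A : Set ℕ} {B : Finset ℕ} (hB : ∀ a ∈ B, a ∈ A) {h K : ℕ}
    (hK : ∀ n, rep A h n ≤ K) {j : ℕ} (hj : j ≤ h) (n : ℕ) : uu B j n ≤ K + 1 := by
  rcases B.eq_empty_or_nonempty with hB0 | ⟨a0, ha0⟩
  · subst hB0
    have : uu ∅ j n ≤ 1 := by
      unfold uu
      apply card_le_one.mpr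
      intro s hs t ht
      rw [mem_filter, mem_ms] at hs ht
      have e1 : s = 0 := Multiset.eq_zero_of_forall_notMem fun a ha => by
        simpa using hs.1.2 a ha
      have e2 : t = 0 := Multiset.eq_zero_of_forall_notMem fun a ha => by
        simpa using ht.1.2 a ha
      rw [e1, e2]
    omega
  · have h1 := uu_le_rep hB j n
    have h2 := rep_order (hB a0 ha0) hj n
    have h3 := hK (n + (h - j) * a0)
    omega

theorem summable_bdd {f : ℕ → ℝ} {C x : ℝ} (hx0 : 0 ≤ x) (hx1 : x < 1) (hf0 : ∀ n, 0 ≤ f n)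
    (hf : ∀ n, f n ≤ C) : Summable fun n => f n * x ^ n := by
  apply Summable.of_nonneg_of_le (fun n => mul_nonneg (hf0 n) (by positivity))
    (fun n => mul_le_mul_of_nonneg_right (hf n) (by positivity))
  exact (summable_geometric_of_lt_one hx0 hx1).mul_left C

theorem tail_le {f : ℕ → ℝ} {C x : ℝ} (hx0 : 0 ≤ x) (hx1 : x < 1) (hf0 : ∀ n, 0 ≤ f n)
    (hf : ∀ n, f n ≤ C) (N : ℕ) :
    ∑' n, f n * x ^ n ≤ ∑ n ∈ range N, f n * x ^ n + C * x ^ N * (1 / (1 - x)) := by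
  have hs := summable_bdd hx0 hx1 hf0 hf
  rw [← hs.sum_add_tsum_nat_add N]
  apply add_le_add_right
  have h1 : ∀ n, f (n + N) * x ^ (n + N) ≤ (C * x ^ N) * x ^ n := by
    intro n
    rw [pow_add]
    have := mul_le_mul_of_nonneg_right (hf (n + N)) (by positivity : 0 ≤ x ^ n * x ^ N)
    linarith
  have hs2 : Summable fun n => (C * x ^ N) * x ^ n :=
    (summable_geometric_of_lt_one hx0 hx1).mul_left _
  refine (Summable.tsum_le_tsum h1 ((summable_nat_add_iff N).mpr hs) hs2).trans ?_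
  rw [tsum_mul_left, tsum_geometric_of_lt_one hx0 hx1, one_div]

theorem var_law (m K : ℕ) {ι : Type} [Fintype ι] (c u : ι → ℂ) (hu : ∀ i, ‖u i‖ = 1)
    {ε : ℝ} (hε : 0 < ε) :
    ∃ x0 : ℝ, x0 < 1 ∧ ∀ A : Set ℕ, (∀ n, rep A (m + 2) n ≤ K) → ∀ x : ℝ, x0 < x → x < 1 →
      ((m : ℝ) + 1) / (m + 2) * (∑' n, (rep A (m + 2) n : ℝ) * x ^ n) - ε * (1 / (1 - x)) ≤
        ∑' n, ‖(rep A (m + 2) n : ℂ) - tp c u n‖ ^ 2 * x ^ n := by
  classical
  obtain ⟨cP, hcP⟩ : ∃ cP, cP = ∑ i, ‖c i‖ := ⟨_, rfl⟩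
  have hc : 0 ≤ cP := by rw [hcP]; exact sum_nonneg fun _ _ => norm_nonneg _
  obtain ⟨M0, hM0, H⟩ := var_fin m (K + 1) hc (half_pos hε)
  refine ⟨max 0 (1 - 1 / M0), ?_, ?_⟩
  · apply max_lt (by norm_num)
    have : 0 < 1 / M0 := by positivity
    linarith
  intro A hA x hx hx1
  have hx0 : 0 < x := lt_of_le_of_lt (le_max_left _ _) hx
  have hx2 : 1 - 1 / M0 < x := lt_of_le_of_lt (le_max_right _ _) hx
  have hxp : 0 < 1 - x := by linarith
  have hM : M0 ≤ 1 / (1 - x) := by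
    rw [le_div_iff₀ hxp]
    have h1 : 1 - x ≤ 1 / M0 := by linarith
    calc M0 * (1 - x) ≤ M0 * (1 / M0) := mul_le_mul_of_nonneg_left h1 hM0.le
      _ = 1 := by field_simp
  obtain ⟨ρ, hρ⟩ : ∃ ρ, ρ = Real.sqrt x := ⟨_, rfl⟩
  have hρ0 : 0 < ρ := by rw [hρ]; exact Real.sqrt_pos.mpr hx0
  have hρ2 : ρ ^ 2 = x := by rw [hρ]; exact Real.sq_sqrt hx0.le
  have hρ1 : ρ < 1 := by
    by_contra hcon
    push Not at hcon
    nlinarith
  -- choice of `N`
  set C : ℝ := ((K : ℝ) + 1 + cP) ^ 2 + (K + 1) with hC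
  have hC0 : 0 < C := by rw [hC]; positivity
  have hδ : 0 < min (1 / 2) (min (1 - ρ) (ε / 2 / C)) := by
    apply lt_min (by norm_num)
    apply lt_min (by linarith)
    positivity
  obtain ⟨N, hN⟩ := exists_pow_lt_of_lt_one hδ hρ1
  have hN1 : ρ ^ N < 1 / 2 := lt_of_lt_of_le hN (min_le_left _ _)
  have hN2 : ρ ^ N < 1 - ρ := lt_of_lt_of_le hN ((min_le_right _ _).trans (min_le_left _ _))
  have hN3 : ρ ^ N < ε / 2 / C := lt_of_lt_of_le hN ((min_le_right _ _).trans (min_le_right _ _))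
  have hNpos : 0 < N := by
    rcases Nat.eq_zero_or_pos N with h | h
    · rw [h, pow_zero] at hN1; norm_num at hN1
    · exact h
  have hxN : C * x ^ N ≤ ε / 2 := by
    have h1 : x ^ N ≤ ρ ^ N := by
      rw [← hρ2, ← pow_mul]
      exact pow_le_pow_of_le_one hρ0.le hρ1.le (by omega)
    rw [lt_div_iff₀ hC0] at hN3
    nlinarith
  set B := (range N).filter (· ∈ A) with hBdef
  have hBA : ∀ a ∈ B, a ∈ A := fun a ha => (mem_filter.mp ha).2
  have hBN : ∀ a ∈ B, a < N := fun a ha => mem_range.mp (mem_filter.mp ha).1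
  have hQ : ∀ j ≤ m + 2, ∀ s ∈ ms B j, s.sum < (m + 2) * N := by
    intro j hj s hs
    rw [mem_ms] at hs
    have h1 : s.sum ≤ s.card • (N - 1) := Multiset.sum_le_card_nsmul s (N - 1) fun a ha => by
      have := hBN a (hs.2 a ha)
      omega
    rw [smul_eq_mul, hs.1] at h1
    have h2 : j * (N - 1) ≤ (m + 2) * (N - 1) := Nat.mul_le_mul_right _ hj
    have h3 : (m + 2) * (N - 1) < (m + 2) * N := by
      apply Nat.mul_lt_mul_of_pos_left (by omega) (by omega)
    omega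
  have hQN : N ≤ (m + 2) * N := by nlinarith
  have hρQ : ρ ^ ((m + 2) * N) ≤ ρ ^ N := pow_le_pow_of_le_one hρ0.le hρ1.le hQN
  have key := H ρ hρ0 hρ1 (by rw [hρ2]; exact hM) ι c u hu hcP.symm B ((m + 2) * N)
    (by positivity) (by linarith) (by linarith) hQ
    (fun j hj n => uu_bound hBA hA hj n)
  rw [hρ2] at key
  -- compare the two sides
  have hQs : (m + 2) * N = N + (m + 1) * N := by ring
  have hA' : ∀ n, (rep A (m + 2) n : ℝ) ≤ K := fun n => by exact_mod_cast hA n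
  have c1 : ∑' n, (rep A (m + 2) n : ℝ) * x ^ n ≤
      ∑ n ∈ range ((m + 2) * N), (uu B (m + 2) n : ℝ) * x ^ n + K * x ^ N * (1 / (1 - x)) := by
    refine (tail_le hx0.le hx1 (fun n => by positivity) hA' N).trans ?_
    apply add_le_add_left
    rw [sum_congr rfl (g := fun n => (uu B (m + 2) n : ℝ) * x ^ n)
      (fun n hn => by rw [hBdef, uu_eq_rep A (mem_range.mp hn)])]
    apply sum_le_sum_of_subset_of_nonneg
    · intro a ha
      rw [mem_range] at ha ⊢
      omega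
    · intro _ _ _
      positivity
  have hnormle : ∀ n, ‖(uu B (m + 2) n : ℂ) - tp c u n‖ ^ 2 ≤ ((K : ℝ) + 1 + cP) ^ 2 := by
    intro n
    apply pow_le_pow_left₀ (norm_nonneg _)
    refine (norm_sub_le _ _).trans ?_
    have h1 := tp_norm (c := c) hu n
    rw [← hcP] at h1
    have h2 : ‖(uu B (m + 2) n : ℂ)‖ ≤ K + 1 := by
      rw [Complex.norm_natCast]
      exact_mod_cast uu_bound hBA hA le_rfl n
    linarith
  have hnormle2 : ∀ n, ‖(rep A (m + 2) n : ℂ) - tp c u n‖ ^ 2 ≤ ((K : ℝ) + 1 + cP) ^ 2 := by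
    intro n
    apply pow_le_pow_left₀ (norm_nonneg _)
    refine (norm_sub_le _ _).trans ?_
    have h1 := tp_norm (c := c) hu n
    rw [← hcP] at h1
    have h2 : ‖(rep A (m + 2) n : ℂ)‖ ≤ K := by
      rw [Complex.norm_natCast]
      exact hA' n
    linarith
  have hsum := summable_bdd hx0.le hx1 (fun n => by positivity) hnormle2
  have c2 : DD ((m + 2) * N) B (m + 2) c u x ≤
      ∑' n, ‖(rep A (m + 2) n : ℂ) - tp c u n‖ ^ 2 * x ^ n +
        ((K : ℝ) + 1 + cP) ^ 2 * x ^ N * (1 / (1 - x)) := by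
    unfold DD
    rw [hQs, sum_range_add]
    apply add_le_add
    · rw [sum_congr rfl (g := fun n => ‖(rep A (m + 2) n : ℂ) - tp c u n‖ ^ 2 * x ^ n)
        (fun n hn => by rw [hBdef, uu_eq_rep A (mem_range.mp hn)])]
      exact hsum.sum_le_tsum _ (fun n _ => by positivity)
    · calc ∑ i ∈ range ((m + 1) * N), ‖(uu B (m + 2) (N + i) : ℂ) - tp c u (N + i)‖ ^ 2 *
            x ^ (N + i) ≤ ∑ i ∈ range ((m + 1) * N), (((K : ℝ) + 1 + cP) ^ 2 * x ^ N) * x ^ i := by
            apply sum_le_sum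
            intro i _
            rw [pow_add]
            have := mul_le_mul_of_nonneg_right (hnormle (N + i))
              (by positivity : 0 ≤ x ^ N * x ^ i)
            linarith
        _ ≤ _ := by
            rw [← mul_sum]
            exact mul_le_mul_of_nonneg_left (geom_le hx0.le hx1 _) (by positivity)
  have hr0 : 0 ≤ ((m : ℝ) + 1) / (m + 2) := by positivity
  have hr1 : ((m : ℝ) + 1) / (m + 2) ≤ 1 := by rw [div_le_one (by positivity)]; linarith
  have hI : 0 < 1 / (1 - x) := by positivity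
  have c3 := mul_le_mul_of_nonneg_left c1 hr0
  have c4 : ((m : ℝ) + 1) / (m + 2) * (K * x ^ N * (1 / (1 - x))) ≤
      K * x ^ N * (1 / (1 - x)) := by
    have : 0 ≤ (K : ℝ) * x ^ N * (1 / (1 - x)) := by positivity
    nlinarith
  have c5 : C * x ^ N * (1 / (1 - x)) ≤ ε / 2 * (1 / (1 - x)) :=
    mul_le_mul_of_nonneg_right hxN hI.le
  have c6 : (K : ℝ) * x ^ N * (1 / (1 - x)) + ((K : ℝ) + 1 + cP) ^ 2 * x ^ N * (1 / (1 - x)) ≤
      C * x ^ N * (1 / (1 - x)) := by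
    rw [hC]
    have : 0 ≤ x ^ N * (1 / (1 - x)) := by positivity
    nlinarith
  linarith

end Pool.Agent.V7H5.ET
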