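import Pool.Agent.V7H5.ET.Bd

set_option autoImplicit false

namespace Pool.Agent.V7H5.ET

open Finset

variable {ι : Type} [Fintype ι]

/-- finite combination of characters -/
noncomputable def tp (c u : ι → ℂ) (n : ℕ) : ℂ := ∑ i, c i * (u i) ^ n

theorem tp_norm {c u : ι → ℂ} (hu : ∀ i, ‖u i‖ = 1) (n : ℕ) : ‖tp c u n‖ ≤ ∑ i, ‖c i‖ := by
  unfold tp
  refine (norm_sum_le _ _).trans (sum_le_sum fun i _ => ?_)
  rw [norm_mul, norm_pow, hu, one_pow, mul_one]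

/-- the smoothed coefficients -/
noncomputable def p2 (c u : ι → ℂ) (ρ : ℝ) (L n : ℕ) : ℂ :=
  ∑ i, c i * ((ρ * u i) ^ n - (ρ ^ (L + 1) * u i) ^ n)

theorem p2_eq (c u : ι → ℂ) (ρ : ℝ) (L n : ℕ) :
    p2 c u ρ L n = tp c u n * (ρ ^ n - (ρ ^ (L + 1)) ^ n) := by
  unfold p2 tp
  rw [sum_mul]
  apply sum_congr rfl
  intro i _
  rw [mul_pow, mul_pow]
  ring

theorem hat_p2 (Q : ℕ) (c u : ι → ℂ) (ρ : ℝ) (L k : ℕ) :
    hat Q (p2 c u ρ L) k = ∑ i, c i * (gk Q (ρ * u i) k - gk Q (ρ ^ (L + 1) * u i) k) := by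
  unfold p2
  rw [hat_sum]
  apply sum_congr rfl
  intro i _
  rw [hat_smul, hat_sub]
  rfl

theorem avg_p2 {Q : ℕ} (hQ : Q ≠ 0) {ρ : ℝ} (hx0 : 0 < ρ) (hx : ρ < 1) (L : ℕ) {c u : ι → ℂ}
    (hu : ∀ i, ‖u i‖ = 1) (h2 : ρ ^ Q ≤ 1 / 2) (h3 : ρ ^ Q ≤ 1 - ρ) :
    avg Q (fun k => ‖hat Q (p2 c u ρ L) k‖) ≤ (∑ i, ‖c i‖) * (2 * L + 4) := by
  have h1 : ∀ k, ‖hat Q (p2 c u ρ L) k‖ ≤
      ∑ i, ‖c i‖ * ‖gk Q (ρ * u i) k - gk Q (ρ ^ (L + 1) * u i) k‖ := by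
    intro k
    rw [hat_p2]
    refine (norm_sum_le _ _).trans (sum_le_sum fun i _ => ?_)
    rw [norm_mul]
  refine (avg_mono h1).trans ?_
  have h4 : avg Q (fun k => ∑ i, ‖c i‖ * ‖gk Q (ρ * u i) k - gk Q (ρ ^ (L + 1) * u i) k‖) =
      ∑ i, ‖c i‖ * avg Q (fun k => ‖gk Q (ρ * u i) k - gk Q (ρ ^ (L + 1) * u i) k‖) := by
    unfold avg
    rw [sum_comm, sum_div]
    apply sum_congr rfl
    intro i _
    rw [← mul_sum, mul_div_assoc]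
  rw [h4, sum_mul]
  apply sum_le_sum
  intro i _
  exact mul_le_mul_of_nonneg_left (ker_l1 hQ hx0 hx L (hu i) h2 h3) (norm_nonneg _)

/-- mean square distance of the representation function from `tp c u` -/
noncomputable def DD (Q : ℕ) (B : Finset ℕ) (h : ℕ) (c u : ι → ℂ) (x : ℝ) : ℝ :=
  ∑ n ∈ range Q, ‖(uu B h n : ℂ) - tp c u n‖ ^ 2 * x ^ n

theorem norm_add_sq_le' {a b : ℂ} {η : ℝ} (hη : 0 < η) :
    ‖a + b‖ ^ 2 ≤ (1 + η) * ‖a‖ ^ 2 + (1 + 1 / η) * ‖b‖ ^ 2 := by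
  have h1 : ‖a + b‖ ^ 2 ≤ (‖a‖ + ‖b‖) ^ 2 :=
    pow_le_pow_left₀ (norm_nonneg _) (norm_add_le _ _) 2
  exact h1.trans (young hη)

theorem W_le {Q : ℕ} (hQ0 : Q ≠ 0) {B : Finset ℕ} {h K : ℕ} {ρ : ℝ} (hx0 : 0 < ρ) (hx : ρ < 1)
    (L : ℕ) {c u : ι → ℂ} (hu : ∀ i, ‖u i‖ = 1) (hQ : ∀ s ∈ ms B h, s.sum < Q)
    (hK : ∀ n, uu B h n ≤ K) {η : ℝ} (hη : 0 < η) :
    avg Q (fun k => ‖(ff Q B ρ k) ^ h - h.factorial * hat Q (p2 c u ρ L) k‖ ^ 2) ≤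
      (1 + η) * (h.factorial ^ 2 * DD Q B h c u (ρ ^ 2)) +
      (1 + 1 / η) * (2 * (h.factorial ^ 2 * K *
          (h * (h - 1) * (∑ a ∈ B, (ρ ^ 2) ^ a) ^ (h - 1)) +
        h.factorial ^ 2 * (∑ i, ‖c i‖) ^ 2 * (1 / (1 - (ρ ^ 2) ^ (L + 1))))) := by
  have hρ2 : 0 ≤ ρ ^ 2 := by positivity
  have hρ21 : ρ ^ 2 < 1 := by nlinarith
  have h1 : ∀ k, (ff Q B ρ k) ^ h - h.factorial * hat Q (p2 c u ρ L) k =
      hat Q (fun n => ((rr B h n * ρ ^ n : ℝ) : ℂ) - h.factorial * p2 c u ρ L n) k := by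
    intro k
    rw [hat_sub, hat_smul, ff_pow ρ hQ]
  simp_rw [h1]
  rw [avg_hat hQ0]
  have hgeo : ∑ n ∈ range Q, ((ρ ^ 2) ^ (L + 1)) ^ n ≤ 1 / (1 - (ρ ^ 2) ^ (L + 1)) := by
    have h2 := geom_sum_mul_neg ((ρ ^ 2) ^ (L + 1)) Q
    have h3 : (ρ ^ 2) ^ (L + 1) < 1 := pow_lt_one₀ hρ2 hρ21 (by omega)
    rw [le_div_iff₀ (by linarith), h2]
    have : 0 ≤ ((ρ ^ 2) ^ (L + 1)) ^ Q := by positivity
    linarith
  have hs2 := sum_sq_rr_sub' (x := ρ ^ 2) hρ2 hρ21.le hQ hK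
  have point : ∀ n ∈ range Q, ‖((rr B h n * ρ ^ n : ℝ) : ℂ) - h.factorial * p2 c u ρ L n‖ ^ 2 ≤
      (1 + η) * (h.factorial ^ 2 * (‖(uu B h n : ℂ) - tp c u n‖ ^ 2 * (ρ ^ 2) ^ n)) +
      (1 + 1 / η) * (2 * ((((rr B h n : ℝ) - h.factorial * uu B h n) ^ 2 * (ρ ^ 2) ^ n) +
        h.factorial ^ 2 * (∑ i, ‖c i‖) ^ 2 * ((ρ ^ 2) ^ (L + 1)) ^ n)) := by
    intro n _
    have e1 : ((rr B h n * ρ ^ n : ℝ) : ℂ) - h.factorial * p2 c u ρ L n =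
        (h.factorial * ((uu B h n : ℂ) - tp c u n) * ρ ^ n) +
        ((((rr B h n : ℝ) - h.factorial * uu B h n) * ρ ^ n : ℝ) +
          h.factorial * tp c u n * (ρ ^ (L + 1)) ^ n) := by
      rw [p2_eq]
      push_cast
      ring
    rw [e1]
    refine (norm_add_sq_le' hη).trans ?_
    have e2 : ‖(h.factorial * ((uu B h n : ℂ) - tp c u n) * ρ ^ n)‖ ^ 2 =
        h.factorial ^ 2 * (‖(uu B h n : ℂ) - tp c u n‖ ^ 2 * (ρ ^ 2) ^ n) := by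
      rw [norm_mul, norm_mul, norm_pow, Complex.norm_natCast, Complex.norm_real,
        Real.norm_eq_abs, abs_of_pos hx0]
      ring
    rw [e2]
    have hη' : 0 ≤ 1 + 1 / η := by positivity
    have e3 : ‖((((rr B h n : ℝ) - h.factorial * uu B h n) * ρ ^ n : ℝ) +
          h.factorial * tp c u n * (ρ ^ (L + 1)) ^ n : ℂ)‖ ^ 2 ≤
        2 * ((((rr B h n : ℝ) - h.factorial * uu B h n) ^ 2 * (ρ ^ 2) ^ n) +
        h.factorial ^ 2 * (∑ i, ‖c i‖) ^ 2 * ((ρ ^ 2) ^ (L + 1)) ^ n) := by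
      have t1 := norm_add_sq_le' (a := ((((rr B h n : ℝ) - h.factorial * uu B h n) * ρ ^ n : ℝ) : ℂ))
        (b := h.factorial * tp c u n * (ρ ^ (L + 1)) ^ n) (η := 1) one_pos
      refine t1.trans ?_
      have t2 : ‖((((rr B h n : ℝ) - h.factorial * uu B h n) * ρ ^ n : ℝ) : ℂ)‖ ^ 2 =
          ((rr B h n : ℝ) - h.factorial * uu B h n) ^ 2 * (ρ ^ 2) ^ n := by
        rw [Complex.norm_real, Real.norm_eq_abs, sq_abs]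
        ring
      have t3 : ‖(h.factorial * tp c u n * (ρ ^ (L + 1)) ^ n : ℂ)‖ ^ 2 ≤
          h.factorial ^ 2 * (∑ i, ‖c i‖) ^ 2 * ((ρ ^ 2) ^ (L + 1)) ^ n := by
        rw [norm_mul, norm_mul, norm_pow, norm_pow, Complex.norm_natCast, Complex.norm_real,
          Real.norm_eq_abs, abs_of_pos hx0]
        have t4 := tp_norm (c := c) hu n
        have t5 : ‖tp c u n‖ ^ 2 ≤ (∑ i, ‖c i‖) ^ 2 := pow_le_pow_left₀ (norm_nonneg _) t4 2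
        calc ((h.factorial : ℝ) * ‖tp c u n‖ * (ρ ^ (L + 1)) ^ n) ^ 2 =
            h.factorial ^ 2 * ‖tp c u n‖ ^ 2 * ((ρ ^ 2) ^ (L + 1)) ^ n := by
              rw [mul_pow, mul_pow]; congr 1
              rw [← pow_mul, ← pow_mul, ← pow_mul, ← pow_mul]
              congr 1; ring
          _ ≤ _ := by gcongr
      rw [t2]
      linarith
    have := mul_le_mul_of_nonneg_left e3 hη'
    linarith
  refine (sum_le_sum point).trans ?_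
  rw [sum_add_distrib, ← mul_sum, ← mul_sum, ← mul_sum, ← mul_sum, sum_add_distrib, ← mul_sum]
  have hη' : 0 ≤ 1 + 1 / η := by positivity
  have hc2 : (0 : ℝ) ≤ h.factorial ^ 2 * (∑ i, ‖c i‖) ^ 2 := by positivity
  have z1 := mul_le_mul_of_nonneg_left hgeo hc2
  unfold DD
  have z2 : 2 * (∑ n ∈ range Q, (((rr B h n : ℝ) - h.factorial * uu B h n) ^ 2 * (ρ ^ 2) ^ n) +
      h.factorial ^ 2 * (∑ i, ‖c i‖) ^ 2 * ∑ n ∈ range Q, ((ρ ^ 2) ^ (L + 1)) ^ n) ≤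
      2 * (h.factorial ^ 2 * K *
          (h * (h - 1) * (∑ a ∈ B, (ρ ^ 2) ^ a) ^ (h - 1)) +
        h.factorial ^ 2 * (∑ i, ‖c i‖) ^ 2 * (1 / (1 - (ρ ^ 2) ^ (L + 1)))) := by
    linarith
  have z3 := mul_le_mul_of_nonneg_left z2 hη'
  linarith

theorem key_ineq {Q : ℕ} (hQ0 : Q ≠ 0) {B : Finset ℕ} {m : ℕ} {ρ : ℝ} (hx0 : 0 < ρ) (hx : ρ < 1)
    (L : ℕ) {c u : ι → ℂ} (hu : ∀ i, ‖u i‖ = 1) (h2 : ρ ^ Q ≤ 1 / 2) (h3 : ρ ^ Q ≤ 1 - ρ)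
    (hQm : ∀ s ∈ ms B m, s.sum < Q) (hQm1 : ∀ s ∈ ms B (m + 1), s.sum < Q) :
    ∃ T : ℝ, 0 ≤ T ∧ T ^ 2 ≤ (∑ n ∈ range Q, (rr B m n : ℝ) ^ 2 * (ρ ^ 2) ^ n) *
        avg Q (fun k => ‖(ff Q B ρ k) ^ (m + 2) - (m + 2).factorial * hat Q (p2 c u ρ L) k‖ ^ 2) ∧
      ∑ n ∈ range Q, (rr B (m + 1) n : ℝ) ^ 2 * (ρ ^ 2) ^ n ≤
        T + (m + 2).factorial * (∑ a ∈ B, ρ ^ a) ^ m * ((∑ i, ‖c i‖) * (2 * L + 4)) := by
  refine ⟨avg Q (fun k => ‖ff Q B ρ k‖ ^ m *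
    ‖(ff Q B ρ k) ^ (m + 2) - (m + 2).factorial * hat Q (p2 c u ρ L) k‖), ?_, ?_, ?_⟩
  · exact avg_nonneg fun k => by positivity
  · rw [← avg_ff hQ0 hQm]
    exact avg_cs Q _ _
  · rw [← avg_ff hQ0 hQm1]
    have hf : 0 ≤ ∑ a ∈ B, ρ ^ a := sum_nonneg fun _ _ => by positivity
    have point : ∀ k, (‖ff Q B ρ k‖ ^ (m + 1)) ^ 2 ≤ ‖ff Q B ρ k‖ ^ m *
        ‖(ff Q B ρ k) ^ (m + 2) - (m + 2).factorial * hat Q (p2 c u ρ L) k‖ +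
        ((m + 2).factorial * (∑ a ∈ B, ρ ^ a) ^ m) * ‖hat Q (p2 c u ρ L) k‖ := by
      intro k
      have e1 : ‖ff Q B ρ k‖ ^ (m + 2) ≤
          ‖(ff Q B ρ k) ^ (m + 2) - (m + 2).factorial * hat Q (p2 c u ρ L) k‖ +
          (m + 2).factorial * ‖hat Q (p2 c u ρ L) k‖ := by
        rw [← norm_pow]
        have := norm_add_le ((ff Q B ρ k) ^ (m + 2) - (m + 2).factorial * hat Q (p2 c u ρ L) k)
          ((m + 2).factorial * hat Q (p2 c u ρ L) k)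
        rw [sub_add_cancel, norm_mul (((m + 2).factorial : ℕ) : ℂ), Complex.norm_natCast] at this
        exact this
      have e2 : ‖ff Q B ρ k‖ ^ m ≤ (∑ a ∈ B, ρ ^ a) ^ m :=
        pow_le_pow_left₀ (norm_nonneg _) (ff_norm_le hx0.le hQ0 k) m
      have e3 : (‖ff Q B ρ k‖ ^ (m + 1)) ^ 2 = ‖ff Q B ρ k‖ ^ m * ‖ff Q B ρ k‖ ^ (m + 2) := by ring
      rw [e3]
      have e4 : 0 ≤ ‖ff Q B ρ k‖ ^ m := by positivity
      have e5 := mul_le_mul_of_nonneg_left e1 e4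
      have e6 : 0 ≤ ((m + 2).factorial : ℝ) * ‖hat Q (p2 c u ρ L) k‖ := by positivity
      have e7 := mul_le_mul_of_nonneg_right e2 e6
      nlinarith
    refine (avg_mono point).trans ?_
    rw [avg_add, avg_smul]
    have := avg_p2 hQ0 hx0 hx L hu h2 h3 (c := c)
    have h9 := mul_le_mul_of_nonneg_left this
      (by positivity : 0 ≤ ((m + 2).factorial : ℝ) * (∑ a ∈ B, ρ ^ a) ^ m)
    linarith

end Pool.Agent.V7H5.ET
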