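import Pool.Agent.V7H5.ET.Sub
import Pool.Agent.V7H5.ET.Dft

set_option autoImplicit false

namespace Pool.Agent.V7H5.ET

open Finset

/-- multisets of `j` elements of `B` -/
def ms (B : Finset ℕ) (j : ℕ) : Finset (Multiset ℕ) :=
  (B.sym j).image (fun k : Sym ℕ j => (k.val : Multiset ℕ))

theorem mem_ms {B : Finset ℕ} {j : ℕ} {s : Multiset ℕ} :
    s ∈ ms B j ↔ s.card = j ∧ ∀ a ∈ s, a ∈ B := by
  unfold ms
  rw [mem_image]
  constructor
  · rintro ⟨k, hk, rfl⟩
    rw [mem_sym_iff] at hk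
    exact ⟨k.2, fun a ha => hk a ha⟩
  · rintro ⟨h1, h2⟩
    exact ⟨⟨s, h1⟩, mem_sym_iff.mpr (fun a ha => h2 a ha), rfl⟩

theorem cp_spec (s : Multiset ℕ) :
    (∏ a ∈ s.toFinset, (s.count a).factorial) * s.countPerms = s.card.factorial := by
  unfold Multiset.countPerms
  rw [Finsupp.multinomial_eq]
  have := Nat.multinomial_spec s.toFinsupp.support s.toFinsupp
  simp only [Multiset.toFinsupp_support, Multiset.toFinsupp_apply] at this
  rw [Multiset.toFinset_sum_count_eq] at this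
  simpa using this

theorem cp_pos (s : Multiset ℕ) : 0 < s.countPerms := by
  rcases Nat.eq_zero_or_pos s.countPerms with h | h
  · have := cp_spec s
    rw [h, mul_zero] at this
    exact absurd this.symm (Nat.factorial_ne_zero _)
  · exact h

theorem cp_le (s : Multiset ℕ) : s.countPerms ≤ s.card.factorial := by
  rw [← cp_spec s]
  apply Nat.le_mul_of_pos_left
  exact Finset.prod_pos fun a _ => Nat.factorial_pos _

theorem cp_nodup {s : Multiset ℕ} (h : s.Nodup) : s.countPerms = s.card.factorial := by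
  rw [← cp_spec s]
  have : ∏ a ∈ s.toFinset, (s.count a).factorial = 1 := by
    apply Finset.prod_eq_one
    intro a ha
    rw [Multiset.count_eq_one_of_mem h (Multiset.mem_toFinset.mp ha)]
    rfl
  rw [this, one_mul]

theorem prod_pow {R : Type*} [CommMonoid R] (y : R) (s : Multiset ℕ) :
    (s.map (fun a => y ^ a)).prod = y ^ s.sum := by
  induction s using Multiset.induction with
  | empty => simp
  | cons a s ih => rw [Multiset.map_cons, Multiset.prod_cons, ih, Multiset.sum_cons, pow_add]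

theorem pow_expand {R : Type*} [CommSemiring R] (B : Finset ℕ) (y : R) (j : ℕ) :
    (∑ a ∈ B, y ^ a) ^ j = ∑ s ∈ ms B j, (s.countPerms : R) * y ^ s.sum := by
  rw [Finset.sum_pow]
  unfold ms
  rw [sum_image (fun (a : Sym ℕ j) _ (b : Sym ℕ j) _ hab => Subtype.ext hab)]
  apply sum_congr rfl
  intro k _
  rw [prod_pow]

/-- number of the ordered `j`-tuples from `B` with sum `n` -/
noncomputable def rr (B : Finset ℕ) (j n : ℕ) : ℕ :=
  ∑ s ∈ (ms B j).filter (fun s => s.sum = n), s.countPerms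

/-- number of the `j`-multisets from `B` with sum `n` -/
noncomputable def uu (B : Finset ℕ) (j n : ℕ) : ℕ := ((ms B j).filter (fun s => s.sum = n)).card

/-- number of the `j`-multisets from `B` without repetition with sum `n` -/
noncomputable def nn (B : Finset ℕ) (j n : ℕ) : ℕ :=
  ((ms B j).filter (fun s => s.sum = n ∧ s.Nodup)).card

theorem nn_le (B : Finset ℕ) (j n : ℕ) : nn B j n ≤ uu B j n := by
  apply card_le_card
  intro s hs
  rw [mem_filter] at hs ⊢
  exact ⟨hs.1, hs.2.1⟩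

theorem rr_le (B : Finset ℕ) (j n : ℕ) : rr B j n ≤ j.factorial * uu B j n := by
  unfold rr uu
  rw [mul_comm, ← smul_eq_mul, ← sum_const]
  apply sum_le_sum
  intro s hs
  rw [mem_filter, mem_ms] at hs
  have := cp_le s
  rwa [hs.1.1] at this

theorem rr_split (B : Finset ℕ) (j n : ℕ) :
    rr B j n = j.factorial * nn B j n +
      ∑ s ∈ (ms B j).filter (fun s => s.sum = n ∧ ¬ s.Nodup), s.countPerms := by
  unfold rr nn
  rw [← sum_filter_add_sum_filter_not ((ms B j).filter (fun s => s.sum = n)) (fun s => s.Nodup)]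
  rw [filter_filter, filter_filter]
  congr 1
  rw [mul_comm, ← smul_eq_mul, ← sum_const]
  apply sum_congr rfl
  intro s hs
  rw [mem_filter, mem_ms] at hs
  rw [cp_nodup hs.2.2, hs.1.1]

theorem uu_split (B : Finset ℕ) (j n : ℕ) :
    uu B j n = nn B j n + ((ms B j).filter (fun s => s.sum = n ∧ ¬ s.Nodup)).card := by
  unfold uu nn
  rw [← card_filter_add_card_filter_not (s := (ms B j).filter (fun s => s.sum = n))
    (fun s => s.Nodup)]
  rw [filter_filter, filter_filter]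

theorem rr_ge (B : Finset ℕ) (j n : ℕ) : j.factorial * nn B j n ≤ rr B j n := by
  rw [rr_split]; omega

theorem rr_sub_le (B : Finset ℕ) (j n : ℕ) :
    rr B j n ≤ j.factorial * nn B j n + j.factorial * (uu B j n - nn B j n) := by
  rw [rr_split, uu_split, Nat.add_sub_cancel_left]
  apply Nat.add_le_add_left
  rw [mul_comm, ← smul_eq_mul, ← sum_const]
  apply sum_le_sum
  intro s hs
  rw [mem_filter, mem_ms] at hs
  have := cp_le s
  rwa [hs.1.1] at this

theorem sum_ms_fiber {R : Type*} [AddCommMonoid R] {B : Finset ℕ} {j Q : ℕ}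
    (hQ : ∀ s ∈ ms B j, s.sum < Q) (F : Multiset ℕ → R) :
    ∑ s ∈ ms B j, F s = ∑ n ∈ range Q, ∑ s ∈ (ms B j).filter (fun s => s.sum = n), F s := by
  rw [sum_fiberwise_of_maps_to]
  intro s hs
  exact mem_range.mpr (hQ s hs)

theorem pow_expand' {R : Type*} [CommSemiring R] {B : Finset ℕ} (y : R) {j Q : ℕ}
    (hQ : ∀ s ∈ ms B j, s.sum < Q) :
    (∑ a ∈ B, y ^ a) ^ j = ∑ n ∈ range Q, (rr B j n : R) * y ^ n := by
  rw [pow_expand, sum_ms_fiber hQ]
  apply sum_congr rfl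
  intro n _
  unfold rr
  push_cast
  rw [sum_mul]
  apply sum_congr rfl
  intro s hs
  rw [(mem_filter.mp hs).2]

/-- the generating function of `B` at the points `ρ ζ ^ k` -/
noncomputable def ff (Q : ℕ) (B : Finset ℕ) (ρ : ℝ) (k : ℕ) : ℂ :=
  ∑ a ∈ B, ((ρ : ℂ) * (zt Q) ^ k) ^ a

theorem ff_pow {B : Finset ℕ} (ρ : ℝ) {j Q : ℕ} (hQ : ∀ s ∈ ms B j, s.sum < Q) (k : ℕ) :
    (ff Q B ρ k) ^ j = hat Q (fun n => ((rr B j n * ρ ^ n : ℝ) : ℂ)) k := by
  unfold ff hat
  rw [pow_expand' _ hQ]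
  apply sum_congr rfl
  intro n _
  push_cast
  rw [mul_pow, ← pow_mul, mul_comm k n]
  ring

theorem avg_ff {B : Finset ℕ} {ρ : ℝ} {j Q : ℕ} (hQ0 : Q ≠ 0)
    (hQ : ∀ s ∈ ms B j, s.sum < Q) :
    avg Q (fun k => (‖ff Q B ρ k‖ ^ j) ^ 2) = ∑ n ∈ range Q, (rr B j n : ℝ) ^ 2 * (ρ ^ 2) ^ n := by
  have h1 : ∀ k, (‖ff Q B ρ k‖ ^ j) ^ 2 = ‖hat Q (fun n => ((rr B j n * ρ ^ n : ℝ) : ℂ)) k‖ ^ 2 := by
    intro k
    rw [← ff_pow ρ hQ, norm_pow]
  simp_rw [h1]
  rw [avg_hat hQ0]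
  apply sum_congr rfl
  intro n _
  rw [Complex.norm_real, Real.norm_eq_abs, sq_abs, mul_pow, ← pow_mul, ← pow_mul, mul_comm n 2]

theorem ff_norm_le {B : Finset ℕ} {ρ : ℝ} (hρ : 0 ≤ ρ) {Q : ℕ} (hQ : Q ≠ 0) (k : ℕ) :
    ‖ff Q B ρ k‖ ≤ ∑ a ∈ B, ρ ^ a := by
  unfold ff
  refine (norm_sum_le _ _).trans (sum_le_sum fun a _ => ?_)
  rw [norm_pow, norm_mul, norm_pow, norm_zt hQ, Complex.norm_real, Real.norm_eq_abs,
    abs_of_nonneg hρ]
  simp

theorem nn_eq (B : Finset ℕ) (j n : ℕ) :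
    nn B j n = ((powersetCard j B).filter (fun X => ∑ a ∈ X, a = n)).card := by
  unfold nn
  symm
  refine card_bij' (fun X _ => X.val) (fun s _ => s.toFinset) ?_ ?_ ?_ ?_
  · intro X hX
    rw [mem_filter, mem_powersetCard] at hX
    rw [mem_filter, mem_ms]
    refine ⟨⟨hX.1.2, fun a ha => hX.1.1 ha⟩, ?_, X.nodup⟩
    have := hX.2
    rw [Finset.sum_eq_multiset_sum, Multiset.map_id'] at this
    exact this
  · intro s hs
    rw [mem_filter, mem_ms] at hs
    rw [mem_filter, mem_powersetCard]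
    obtain ⟨⟨h1, h2⟩, h3, h4⟩ := hs
    refine ⟨⟨fun a ha => h2 a (Multiset.mem_toFinset.mp ha), ?_⟩, ?_⟩
    · rw [Multiset.toFinset_card_of_nodup h4, h1]
    · rw [Finset.sum_eq_multiset_sum, Multiset.map_id', Multiset.toFinset_val,
        Multiset.dedup_eq_self.mpr h4, h3]
  · intro X _
    exact Finset.val_toFinset X
  · intro s hs
    rw [mem_filter] at hs
    rw [Multiset.toFinset_val, Multiset.dedup_eq_self.mpr hs.2.2]

theorem en_eq {B : Finset ℕ} (x : ℝ) {j Q : ℕ} (hQ : ∀ s ∈ ms B j, s.sum < Q) :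
    en B x j = ∑ n ∈ range Q, (nn B j n : ℝ) ^ 2 * x ^ n := by
  classical
  have hmaps : ∀ p ∈ prs B j, ∑ a ∈ p.1, a ∈ range Q := by
    intro p hp
    rw [mem_prs] at hp
    rw [mem_range]
    have := hQ p.1.val (mem_ms.mpr ⟨hp.2.1, fun a ha => hp.1 ha⟩)
    rw [Finset.sum_eq_multiset_sum, Multiset.map_id']
    exact this
  unfold en
  rw [← sum_fiberwise_of_maps_to hmaps]
  apply sum_congr rfl
  intro n _
  have h1 : (prs B j).filter (fun p => ∑ a ∈ p.1, a = n) =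
      (powersetCard j B).filter (fun X => ∑ a ∈ X, a = n) ×ˢ
        (powersetCard j B).filter (fun X => ∑ a ∈ X, a = n) := by
    ext ⟨X, Y⟩
    rw [mem_filter, mem_prs, mem_product, mem_filter, mem_filter, mem_powersetCard,
      mem_powersetCard]
    simp only
    constructor
    · rintro ⟨⟨h1, h2, h3, h4, h5⟩, h6⟩
      exact ⟨⟨⟨h1, h2⟩, h6⟩, ⟨h3, h4⟩, h5 ▸ h6⟩
    · rintro ⟨⟨⟨h1, h2⟩, h6⟩, ⟨h3, h4⟩, h5⟩
      exact ⟨⟨h1, h2, h3, h4, h6.trans h5.symm⟩, h6⟩
  rw [sum_congr rfl (g := fun _ => x ^ n) (fun p hp => by rw [(mem_filter.mp hp).2]), h1,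
    sum_const, card_product, nsmul_eq_mul, nn_eq]
  push_cast
  ring

end Pool.Agent.V7H5.ET
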