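import Mathlib

set_option autoImplicit false

namespace Pool.Agent.V7H5.ET

open Finset

/-- pairs of `j`-element subsets of `B` with equal sums -/
def prs (B : Finset ℕ) (j : ℕ) : Finset (Finset ℕ × Finset ℕ) :=
  (powersetCard j B ×ˢ powersetCard j B).filter (fun p => ∑ a ∈ p.1, a = ∑ a ∈ p.2, a)

/-- weighted number of the pairs of `j`-element subsets with equal sums -/
noncomputable def en (B : Finset ℕ) (x : ℝ) (j : ℕ) : ℝ := ∑ p ∈ prs B j, x ^ (∑ a ∈ p.1, a)

theorem mem_prs {B : Finset ℕ} {j : ℕ} {p : Finset ℕ × Finset ℕ} :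
    p ∈ prs B j ↔ p.1 ⊆ B ∧ p.1.card = j ∧ p.2 ⊆ B ∧ p.2.card = j ∧
      ∑ a ∈ p.1, a = ∑ a ∈ p.2, a := by
  unfold prs
  rw [mem_filter, mem_product, mem_powersetCard, mem_powersetCard]
  tauto

theorem en_nonneg {B : Finset ℕ} {x : ℝ} (hx : 0 ≤ x) (j : ℕ) : 0 ≤ en B x j :=
  sum_nonneg fun _ _ => by positivity

theorem en_step {B : Finset ℕ} {x : ℝ} (hx : 0 ≤ x) (hx1 : x ≤ 1) (j : ℕ) :
    (∑ a ∈ B, x ^ a - 2 * j) * en B x j ≤ (j + 1) * en B x (j + 1) := by
  classical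
  -- the bijection
  have bij : ∑ t ∈ (prs B j ×ˢ B).filter (fun t => t.2 ∉ t.1.1 ∧ t.2 ∉ t.1.2),
      x ^ (∑ a ∈ t.1.1, a + t.2) =
      ∑ t ∈ (prs B (j + 1) ×ˢ B).filter (fun t => t.2 ∈ t.1.1 ∧ t.2 ∈ t.1.2),
        x ^ (∑ a ∈ t.1.1, a) := by
    refine sum_nbij' (fun t => ((insert t.2 t.1.1, insert t.2 t.1.2), t.2))
      (fun t => ((t.1.1.erase t.2, t.1.2.erase t.2), t.2)) ?_ ?_ ?_ ?_ ?_
    · rintro ⟨⟨X, Y⟩, a⟩ h
      rw [mem_filter, mem_product, mem_prs] at h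
      simp only at h
      obtain ⟨⟨⟨h1, h2, h3, h4, h5⟩, h6⟩, h7, h8⟩ := h
      rw [mem_filter, mem_product, mem_prs]
      simp only
      refine ⟨⟨⟨insert_subset h6 h1, ?_, insert_subset h6 h3, ?_, ?_⟩, h6⟩, mem_insert_self _ _,
        mem_insert_self _ _⟩
      · rw [card_insert_of_notMem h7, h2]
      · rw [card_insert_of_notMem h8, h4]
      · rw [sum_insert h7, sum_insert h8, h5]
    · rintro ⟨⟨X, Y⟩, a⟩ h
      rw [mem_filter, mem_product, mem_prs] at h
      simp only at h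
      obtain ⟨⟨⟨h1, h2, h3, h4, h5⟩, h6⟩, h7, h8⟩ := h
      rw [mem_filter, mem_product, mem_prs]
      simp only
      refine ⟨⟨⟨(erase_subset _ _).trans h1, ?_, (erase_subset _ _).trans h3, ?_, ?_⟩, h6⟩,
        notMem_erase _ _, notMem_erase _ _⟩
      · rw [card_erase_of_mem h7, h2]; rfl
      · rw [card_erase_of_mem h8, h4]; rfl
      · have e1 := add_sum_erase X (fun a => a) h7
        have e2 := add_sum_erase Y (fun a => a) h8
        omega
    · rintro ⟨⟨X, Y⟩, a⟩ h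
      rw [mem_filter, mem_product, mem_prs] at h
      simp only at h
      obtain ⟨-, h7, h8⟩ := h
      simp only [erase_insert h7, erase_insert h8]
    · rintro ⟨⟨X, Y⟩, a⟩ h
      rw [mem_filter, mem_product, mem_prs] at h
      simp only at h
      obtain ⟨-, h7, h8⟩ := h
      simp only [insert_erase h7, insert_erase h8]
    · rintro ⟨⟨X, Y⟩, a⟩ h
      rw [mem_filter, mem_product, mem_prs] at h
      simp only at h
      obtain ⟨-, h7, h8⟩ := h
      simp only [sum_insert h7]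
      rw [add_comm]
  -- upper bound of the right-hand side
  have up : ∑ t ∈ (prs B (j + 1) ×ˢ B).filter (fun t => t.2 ∈ t.1.1 ∧ t.2 ∈ t.1.2),
        x ^ (∑ a ∈ t.1.1, a) ≤ (j + 1) * en B x (j + 1) := by
    rw [sum_filter, sum_product, en, mul_sum]
    apply sum_le_sum
    rintro ⟨X, Y⟩ h
    rw [mem_prs] at h
    simp only at h
    simp only
    rw [← sum_filter, sum_const, nsmul_eq_mul]
    apply mul_le_mul_of_nonneg_right _ (by positivity)
    have : (B.filter (fun a => a ∈ X ∧ a ∈ Y)).card ≤ X.card :=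
      card_le_card (fun a ha => (mem_filter.mp ha).2.1)
    rw [h.2.1] at this
    exact_mod_cast this
  have low : (∑ a ∈ B, x ^ a - 2 * j) * en B x j ≤
      ∑ t ∈ (prs B j ×ˢ B).filter (fun t => t.2 ∉ t.1.1 ∧ t.2 ∉ t.1.2),
      x ^ (∑ a ∈ t.1.1, a + t.2) := by
    rw [sum_filter, sum_product, en, mul_sum]
    apply sum_le_sum
    rintro ⟨X, Y⟩ h
    rw [mem_prs] at h
    simp only at h
    obtain ⟨h1, h2, h3, h4, h5⟩ := h
    simp only
    have e1 : ∀ a ∈ B, (if a ∉ X ∧ a ∉ Y then x ^ (∑ a ∈ X, a + a) else 0) ≥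
        x ^ (∑ a ∈ X, a) * (x ^ a - (if a ∈ X then 1 else 0) - (if a ∈ Y then 1 else 0)) := by
      intro a _
      have hxa : x ^ a ≤ 1 := pow_le_one₀ hx hx1
      have hxa0 : 0 ≤ x ^ a := by positivity
      have hp : 0 ≤ x ^ (∑ a ∈ X, a) := by positivity
      split_ifs with c1 c2 c3 c3 c2 c3 c3
      · exact absurd c2 c1.1
      · exact absurd c2 c1.1
      · exact absurd c3 c1.2
      · rw [pow_add]; simp
      · nlinarith
      · nlinarith
      · nlinarith
      · exact absurd ⟨c2, c3⟩ c1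
    refine le_trans ?_ (sum_le_sum e1)
    rw [← mul_sum, mul_comm]
    apply mul_le_mul_of_nonneg_left _ (by positivity)
    rw [sum_sub_distrib, sum_sub_distrib]
    have c1 : ∑ a ∈ B, (if a ∈ X then (1 : ℝ) else 0) = j := by
      rw [← sum_filter, sum_const, nsmul_eq_mul, mul_one, filter_mem_eq_inter,
        inter_eq_right.mpr h1, h2]
    have c2 : ∑ a ∈ B, (if a ∈ Y then (1 : ℝ) else 0) = j := by
      rw [← sum_filter, sum_const, nsmul_eq_mul, mul_one, filter_mem_eq_inter,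
        inter_eq_right.mpr h3, h4]
    rw [c1, c2]
    linarith
  linarith [bij]

theorem en_zero (B : Finset ℕ) (x : ℝ) : en B x 0 = 1 := by
  unfold en
  have : prs B 0 = {(∅, ∅)} := by
    ext ⟨X, Y⟩
    rw [mem_prs, mem_singleton, Prod.mk.injEq]
    simp only
    constructor
    · rintro ⟨-, h2, -, h4, -⟩
      exact ⟨card_eq_zero.mp h2, card_eq_zero.mp h4⟩
    · rintro ⟨rfl, rfl⟩
      simp
  rw [this, sum_singleton]
  simp

theorem en_low {B : Finset ℕ} {x : ℝ} (hx : 0 ≤ x) (hx1 : x ≤ 1) (m : ℕ)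
    (hS : 2 * (m : ℝ) ≤ ∑ a ∈ B, x ^ a) (j : ℕ) (hj : j ≤ m) :
    (∑ a ∈ B, x ^ a - 2 * m) ^ j ≤ j.factorial * en B x j := by
  induction j with
  | zero => rw [en_zero]; simp
  | succ j ih =>
    have h1 := ih (by omega)
    have h2 := en_step (B := B) hx hx1 j
    have h3 : (0 : ℝ) ≤ ∑ a ∈ B, x ^ a - 2 * m := by linarith
    have h4 : ∑ a ∈ B, x ^ a - 2 * (m : ℝ) ≤ ∑ a ∈ B, x ^ a - 2 * j := by
      have : (j : ℝ) ≤ m := by exact_mod_cast (by omega : j ≤ m)
      linarith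
    rw [pow_succ, Nat.factorial_succ]
    push_cast
    calc (∑ a ∈ B, x ^ a - 2 * (m : ℝ)) ^ j * (∑ a ∈ B, x ^ a - 2 * (m : ℝ))
        ≤ (j.factorial * en B x j) * (∑ a ∈ B, x ^ a - 2 * (m : ℝ)) :=
          mul_le_mul_of_nonneg_right h1 h3
      _ ≤ (j.factorial * en B x j) * (∑ a ∈ B, x ^ a - 2 * (j : ℝ)) := by
          apply mul_le_mul_of_nonneg_left h4
          have := en_nonneg (B := B) hx j
          positivity
      _ = j.factorial * ((∑ a ∈ B, x ^ a - 2 * (j : ℝ)) * en B x j) := by ring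
      _ ≤ j.factorial * ((j + 1) * en B x (j + 1)) := by
          apply mul_le_mul_of_nonneg_left h2 (by positivity)
      _ = _ := by ring

end Pool.Agent.V7H5.ET
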